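import Pool.Agent.H2.PF.Inst

/-! Acceptance on the hard instances: adapted from the old file. -/

set_option autoImplicit false
set_option maxHeartbeats 4000000

namespace Pool.Agent.H2.PF

open Pool.Agent.H58.PM

section acc

variable {F : Type} [Field F] {n d T s q w pA pB : ℕ} {P : Partition n pA pB} {k M L : ℕ}
  {code : Fin n → Fin L → Bool} {pos : (Fin k → Bool) → Fin n}

theorem entry_congr (C : Algorithm F n d T s q w pA pB P) (I : Fin pA) (J : Fin pB) (j : Fin q)
    {x x' : Input n d} (h : ∀ i, P.groupA i = I → x (false, i) = x' (false, i))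
    (h' : ∀ i, P.groupB i = J → x (true, i) = x' (true, i)) :
    C.entry I J j x = C.entry I J j x' := by
  unfold Algorithm.entry
  apply Finset.sum_congr rfl
  intro g _
  rw [value_congr (C.circuit I J j) (C.reads I J j) (x := fun i => x (false, i))
    (x' := fun i => x' (false, i)) (fun i hi => h i hi) g, C.weight_group I J j g _ _ h']

theorem acc_congr (C : Algorithm F n d T s q w pA pB P) (I : Fin pA) (J : Fin pB)
    {x x' : Input n d} (h : ∀ i, P.groupA i = I → x (false, i) = x' (false, i))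
    (h' : ∀ i, P.groupB i = J → x (true, i) = x' (true, i)) :
    C.Acc I J x ↔ C.Acc I J x' := by
  unfold Algorithm.Acc
  simp only [entry_congr C I J _ h h']

theorem accepts_iff (C : Algorithm F n d T s q w pA pB P) (hn : 0 < n) (J0 : Fin pB)
    (hJ0 : ∀ v, P.groupB (pos v) = J0) (a b : (Fin k → Bool) → Fin M → Bool) (u : Fin k → Bool)
    (G : Finset (Fin k → Bool)) :
    C.Accepts (inst d code pos a b u G) ↔
      (∃ I ≠ P.groupA ⟨0, hn⟩, ∃ J, C.Acc I J (inst d code pos a b (fun _ => false) G)) ∨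
      (∃ J ≠ J0, C.Acc (P.groupA ⟨0, hn⟩) J (inst d code pos a b u ∅)) ∨
      C.Acc (P.groupA ⟨0, hn⟩) J0 (inst d code pos a b u G) := by
  have h1 : ∀ I ≠ P.groupA ⟨0, hn⟩, ∀ J, (C.Acc I J (inst d code pos a b u G) ↔
      C.Acc I J (inst d code pos a b (fun _ => false) G)) := by
    intro I hI J
    apply acc_congr
    · intro i hi
      have h2 : ¬ i.1 = 0 := by
        intro h3
        apply hI
        rw [← hi]
        congr 1
        exact Fin.ext h3
      show vecA d code (a u) i = vecA d code (a fun _ => false) i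
      unfold vecA
      rw [if_neg h2, if_neg h2]
    · intro i _
      rfl
  have h2 : ∀ J ≠ J0, (C.Acc (P.groupA ⟨0, hn⟩) J (inst d code pos a b u G) ↔
      C.Acc (P.groupA ⟨0, hn⟩) J (inst d code pos a b u ∅)) := by
    intro J hJ
    apply acc_congr
    · intro i _
      rfl
    · intro i hi
      show vecB d code pos b G i = vecB d code pos b ∅ i
      unfold vecB
      have h3 : ¬ ∃ v ∈ G, pos v = i := by
        rintro ⟨v, _, rfl⟩
        exact hJ (hi.symm.trans (hJ0 v))
      have h4 : ¬ ∃ v ∈ (∅ : Finset (Fin k → Bool)), pos v = i := by simp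
      simp only [h3, h4]
  constructor
  · rintro ⟨I, J, h⟩
    by_cases hI : I = P.groupA ⟨0, hn⟩
    · subst hI
      by_cases hJ : J = J0
      · subst hJ
        exact Or.inr (Or.inr h)
      · exact Or.inr (Or.inl ⟨J, hJ, (h2 J hJ).1 h⟩)
    · exact Or.inl ⟨I, hI, J, (h1 I hI J).1 h⟩
  · rintro (⟨I, hI, J, h⟩ | ⟨J, hJ, h⟩ | h)
    · exact ⟨I, J, (h1 I hI J).2 h⟩
    · exact ⟨_, J, (h2 J hJ).2 h⟩
    · exact ⟨_, J0, h⟩

end acc

end Pool.Agent.H2.PF
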