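import Pool.Agent.H2.PF.Net

/-! An AND of decision trees is a decision list.

STATEMENT. If all the functions `e q`, `q ∈ Q`, have decision trees of depth at most `w`, then the
AND `F` of the literals `e q = b q` is a decision list of width at most `w`.

PROOF. Use `OVT.exists_list` (Pool/Agent/H58/OVT/Lists.lean) with `p := Q.card`,
`e' k := fun σ => if e (q_k) σ = b (q_k) then none else some false` where `q_k := (Q.equivFin.symm k).1`
(this is `(he _ _).comp fun y => if y = b q then none else some false`, Dt w), the default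
`D := fun _ => true` (`Dt.of_const`), and `F`. The hypothesis `hF` of `exists_list`: given `σ`, if
all literals are true then all `e' k σ = none` and `F σ = true = D σ`; otherwise let `k` be the least
index with `e' k σ ≠ none` (`Nat.find`, or `Fin.find`, or well-founded minimum
`exists_minimal`/`Finset.min'` of the finset of the violated indices, or `WellFounded.min`); then
`e' l σ = none` for `l < k`, and `F σ = false` (otherwise all the literals hold by `hF`), so
`e' k σ = some false = some (F σ)`. -/

set_option autoImplicit false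
set_option maxHeartbeats 4000000

namespace Pool.Agent.H2.PF

open Pool.Agent.H58.OVT

theorem and_list {V κ : Type} [DecidableEq V] {w : ℕ} (Q : Finset κ)
    (e : κ → (V → Bool) → Bool) (b : κ → Bool) (he : ∀ q ∈ Q, Dt w (e q))
    (F : (V → Bool) → Bool) (hF : ∀ σ, F σ = true ↔ ∀ q ∈ Q, e q σ = b q) :
    ∃ L : List (Item V Bool), (∀ x ∈ L, x.1.1.card ≤ w) ∧ ∀ y0 : Bool, evalL L y0 = F := by
  classical
  obtain ⟨qk, hqk, hqs⟩ : ∃ qk : Fin Q.card → κ, (∀ k, qk k ∈ Q) ∧ ∀ q ∈ Q, ∃ k, qk k = q := by
    refine ⟨fun k => (Q.equivFin.symm k).1, fun k => (Q.equivFin.symm k).2, fun q hq => ?_⟩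
    exact ⟨Q.equivFin ⟨q, hq⟩, congrArg Subtype.val (Equiv.symm_apply_apply Q.equivFin ⟨q, hq⟩)⟩
  refine exists_list (fun k σ => if e (qk k) σ = b (qk k) then none else some false) (fun k => ?_)
    (fun _ => true) (Dt.of_const fun _ _ => rfl) F fun σ => ?_
  · exact (he _ (hqk k)).comp fun y => if y = b (qk k) then (none : Option Bool) else some false
  · by_cases hall : ∀ k, e (qk k) σ = b (qk k)
    · left
      refine ⟨fun k => if_pos (hall k), (hF σ).2 fun q hq => ?_⟩
      obtain ⟨k, rfl⟩ := hqs q hq
      exact hall k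
    · right
      push Not at hall
      obtain ⟨k0, hk0⟩ := hall
      obtain ⟨k, hk, hmin⟩ := (Finset.univ.filter fun k => e (qk k) σ ≠ b (qk k)).exists_min_image
        (fun k => (k : ℕ)) ⟨k0, Finset.mem_filter.2 ⟨Finset.mem_univ _, hk0⟩⟩
      have hk1 : e (qk k) σ ≠ b (qk k) := (Finset.mem_filter.1 hk).2
      refine ⟨k, fun l hl => ?_, ?_⟩
      · by_contra hne
        have h1 : e (qk l) σ ≠ b (qk l) := fun h => hne (if_pos h)
        have h2 := hmin l (Finset.mem_filter.2 ⟨Finset.mem_univ _, h1⟩)
        have h3 : (l : ℕ) < (k : ℕ) := hl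
        omega
      · have h1 : F σ = false := by
          rw [← Bool.not_eq_true]
          intro h
          exact hk1 ((hF σ).1 h _ (hqk k))
        rw [h1]
        exact if_neg hk1

end Pool.Agent.H2.PF
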