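import Pool.Agent.H58.OVT.Dt

/-! Decision trees after a substitution of literals and constants.

STATEMENT. If every coordinate of `sub u` depends on at most one coordinate of `u`, then
`f (sub u)` has a decision tree of the same depth as `f`.

PROOF. Induction on `t` (for all `f`). `t = 0`: `f` is constant. `t + 1`: `f` constant: trivial.
Otherwise `f` queries `x`, and `fun σ => f (update σ x b)` is `Dt t` for both `b`. By hypothesis
there is `i` with: `u i = u' i → sub u x = sub u' x`. The new tree queries `i`: for the answer `b`
put `φ := sub (update (fun _ => false) i b) x`. For every `u`: `sub (update u i b) x = φ` (the two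
arguments agree at `i`), so
`f (sub (update u i b)) = f (update (sub (update u i b)) x φ)` (`Function.update_eq_self` after
rewriting `φ`), which is the function `fun u => f' (sub u)` with `f' σ := f (update σ x φ)` at the
point `update u i b`; it is `Dt t` by the induction hypothesis and `Dt.fix`. -/

set_option autoImplicit false
set_option maxHeartbeats 4000000

namespace Pool.Agent.H2.PF

open Pool.Agent.H58.OVT

theorem dt_subst {V U Y : Type} [DecidableEq V] [DecidableEq U] (sub : (U → Bool) → (V → Bool))
    (hsub : ∀ x, ∃ i, ∀ u u' : U → Bool, u i = u' i → sub u x = sub u' x) {t : ℕ} :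
    ∀ {f : (V → Bool) → Y}, Dt t f → Dt t (fun u => f (sub u)) := by
  induction t with
  | zero =>
    intro f hf
    exact Dt.of_const fun σ τ => hf (sub σ) (sub τ)
  | succ t ih =>
    intro f hf
    rcases hf with hf | ⟨x, hx⟩
    · exact Dt.of_const fun σ τ => hf (sub σ) (sub τ)
    · obtain ⟨i, hi⟩ := hsub x
      refine Or.inr ⟨i, fun b => ?_⟩
      have h1 := Dt.fix (ih (hx (sub (Function.update (fun _ => false) i b) x))) i b
      refine (congrArg (Dt t) ?_).mp h1
      funext u
      show f (Function.update (sub (Function.update u i b)) x _) = f (sub (Function.update u i b))
      have h2 : sub (Function.update (fun _ => false) i b) x = sub (Function.update u i b) x :=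
        hi _ _ (by rw [Function.update_self, Function.update_self])
      rw [h2, Function.update_eq_self]

end Pool.Agent.H2.PF
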