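import Pool.Agent.H2.PF.Net
import Pool.Agent.H2.PF.Sub

/-! The encodings of `u ∈ {0,1}^k` by the alive coordinates.

`sel` chooses `2 k` different alive coordinates, one for each `(i, c)`, `i < k`, `c ∈ {0,1}`. The
vector of `A` holds the truth value of `u i = c` there, and the vector of `B` the truth value of
`v i ≠ c`. The two are orthogonal if and only if `u = v`.

PROOF of `enc_orth`. (→) If `u ≠ v`, let `u i ≠ v i`, `p := (i, u i)`, `x := sel p`: `encA ... x =
(out (θ x)).getD (sub sel u x) = sub sel u x = true` (witness `p`) and `encB ... x = true` (witness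
`p`: `v i ≠ u i`). (←) `u = v`, and `encA x = true`, `encB x = true`: the second gives `p` with
`sel p = x`, `v p.1 ≠ p.2`; then `out (θ x) = none`, so `sub sel u x = true`, which gives `p'` with
`sel p' = x`, `u p'.1 = p'.2`, and `p = p'` because `sel` is injective: contradiction.
PROOF of `sub_dep`. If `x = sel p`, take `i := p.1`: for every `u`, `sub sel u x = decide (u p.1 =
p.2)` (injectivity). Otherwise `sub sel u x = false` for all `u`, take `i := ⟨0, hk⟩`.
PROOF of `enc_dt`. `encA out sel θ u = fill out θ (sub sel u)` by definition; `dt_subst` for the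
function `fun σ => f (fill out θ σ)`. -/

set_option autoImplicit false
set_option maxHeartbeats 4000000

namespace Pool.Agent.H2.PF

open Pool.Agent.H58.OVT

section

variable {k M : ℕ} {Ξ : Type}

open Classical in
/-- The values of the alive coordinates. -/
noncomputable def sub (sel : Fin k × Bool → Fin M) (u : Fin k → Bool) : Fin M → Bool :=
  fun x => decide (∃ p, sel p = x ∧ u p.1 = p.2)

/-- The data bits of the vector of `A` which encodes `u`. -/
noncomputable def encA (out : Ξ → Option Bool) (sel : Fin k × Bool → Fin M) (θ : Fin M → Ξ)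
    (u : Fin k → Bool) : Fin M → Bool :=
  fill out θ (sub sel u)

open Classical in
/-- The data bits of the vector of `B` which encodes `v`. -/
noncomputable def encB (sel : Fin k × Bool → Fin M) (v : Fin k → Bool) : Fin M → Bool :=
  fun x => decide (∃ p, sel p = x ∧ v p.1 ≠ p.2)

theorem enc_orth {out : Ξ → Option Bool} {sel : Fin k × Bool → Fin M} {θ : Fin M → Ξ}
    (hsel : Function.Injective sel) (hal : ∀ p, out (θ (sel p)) = none) (u v : Fin k → Bool) :
    (∀ x, ¬ (encA out sel θ u x = true ∧ encB sel v x = true)) ↔ u = v := by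
  have hA : ∀ p, encA out sel θ u (sel p) = sub sel u (sel p) := by
    intro p
    unfold encA fill
    rw [hal p, Option.getD_none]
  constructor
  · intro h
    funext i
    by_contra hne
    refine h (sel (i, u i)) ⟨?_, ?_⟩
    · rw [hA]
      exact decide_eq_true ⟨(i, u i), rfl, rfl⟩
    · exact decide_eq_true ⟨(i, u i), rfl, fun h' => hne h'.symm⟩
  · rintro rfl x ⟨h1, h2⟩
    obtain ⟨p, hp, hne⟩ := of_decide_eq_true h2
    rw [← hp, hA] at h1
    obtain ⟨p', hp', heq⟩ := of_decide_eq_true h1
    have hpp : p' = p := hsel hp'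
    rw [hpp] at heq
    exact hne heq

theorem sub_dep {sel : Fin k × Bool → Fin M} (hsel : Function.Injective sel) (hk : 0 < k) :
    ∀ x, ∃ i, ∀ u u' : Fin k → Bool, u i = u' i → sub sel u x = sub sel u' x := by
  intro x
  have key : ∀ (p : Fin k × Bool) (u u' : Fin k → Bool), u p.1 = u' p.1 →
      sub sel u (sel p) = true → sub sel u' (sel p) = true := by
    intro p u u' huu h
    obtain ⟨p', hp', heq⟩ := of_decide_eq_true h
    have hpp : p' = p := hsel hp'
    rw [hpp, huu] at heq
    exact decide_eq_true ⟨p, rfl, heq⟩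
  by_cases hx : ∃ p, sel p = x
  · obtain ⟨p, rfl⟩ := hx
    refine ⟨p.1, fun u u' huu => ?_⟩
    rw [Bool.eq_iff_iff]
    exact ⟨key p u u' huu, key p u' u huu.symm⟩
  · refine ⟨⟨0, hk⟩, fun u u' _ => ?_⟩
    have h0 : ∀ w : Fin k → Bool, sub sel w x = false := by
      intro w
      refine decide_eq_false ?_
      rintro ⟨p, hp, _⟩
      exact hx ⟨p, hp⟩
    rw [h0, h0]

theorem enc_dt {Y : Type} {out : Ξ → Option Bool} {sel : Fin k × Bool → Fin M} {θ : Fin M → Ξ}
    (hsel : Function.Injective sel) (hk : 0 < k) {t : ℕ} {f : (Fin M → Bool) → Y}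
    (hf : Dt t (fun σ => f (fill out θ σ))) : Dt t (fun u => f (encA out sel θ u)) := by
  exact dt_subst (fun u => sub sel u) (sub_dep hsel hk) hf

end

end Pool.Agent.H2.PF
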