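import Pool.Agent.H2.PF.Defs
import Pool.Agent.H58.OVT.Switch

/-! Nets of AND gates over functions of Boolean variables, and filled assignments. -/

set_option autoImplicit false
set_option maxHeartbeats 4000000

namespace Pool.Agent.H2.PF

/-- A net: functions `inp i` and `val g` of the variables in `V`, the values `val g` are ANDs of
literals of functions `inp i` and of functions `val h` of lower layers. -/
structure Net (V ι G : Type) where
  inp : ι → (V → Bool) → Bool
  val : G → (V → Bool) → Bool
  layer : G → ℕ
  lits : G → Finset ((ι ⊕ G) × Bool)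
  lower : ∀ g, ∀ q ∈ lits g, ∀ h, q.1 = Sum.inr h → layer h < layer g
  val_iff : ∀ g σ, val g σ = true ↔
    ∀ q ∈ lits g, Sum.elim (fun i => inp i σ) (fun h => val h σ) q.1 = q.2

/-- The net after a substitution. -/
def Net.comp {V V' ι G : Type} (N : Net V ι G) (φ : (V' → Bool) → (V → Bool)) : Net V' ι G where
  inp i σ := N.inp i (φ σ)
  val g σ := N.val g (φ σ)
  layer := N.layer
  lits := N.lits
  lower := N.lower
  val_iff g σ := N.val_iff g (φ σ)

/-- The coordinates `x` with `out (θ x) = none` are alive, the others are fixed. -/
def fill {V Ξ : Type} (out : Ξ → Option Bool) (θ : V → Ξ) (σ : V → Bool) : V → Bool :=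
  fun x => (out (θ x)).getD (σ x)

end Pool.Agent.H2.PF
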