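import Pool.Agent.H2.PF.Inst
import Pool.Agent.H2.PF.Net

/-! The net of a circuit: the values of the gates as functions of the data bits of vector `0`.

PROOF of `net_inp`: for `z = (i, x)`: if `i.1 ≠ 0` or `x` is not a data coordinate, the bit
`vecA d code σ i x` does not depend on `σ` (`vecA`, `PM.lay`: `lay_other` in
Pool/Agent/H58/PM/Layout.lean gives it for `x` with `∀ e, x.1 ≠ L + 2 + e.1`), so `Dt.of_const`. If
`i.1 = 0` and `x.1 = L + 2 + e.1`, the bit is `σ e` (`lay_dat`, with `hd`), and
`OVT.dt_of_isJunta_one` (or directly: `Dt 1` by `Or.inr ⟨e, fun b σ τ => ...⟩`,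
`Function.update_self`). -/

set_option autoImplicit false
set_option maxHeartbeats 4000000

namespace Pool.Agent.H2.PF

open Pool.Agent.H58.PM Pool.Agent.H58.OVT

variable {n d T s L : ℕ}

/-- The values of the gates as functions of the data bits of the vector `0` of `A`. -/
noncomputable def net (C : Circuit n d T s) (code : Fin n → Fin L → Bool) (M : ℕ) :
    Net (Fin M) (Fin n × Fin d) (Fin s) where
  inp z σ := vecA d code σ z.1 z.2
  val g σ := C.value (vecA d code σ) g
  layer g := (C.layer g : ℕ)
  lits := C.lits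
  lower g q hq h hh := C.lower g q hq h hh
  val_iff g σ := value_iff C (vecA d code σ) g

theorem net_inp (C : Circuit n d T s) (code : Fin n → Fin L → Bool) {M : ℕ}
    (hd : L + 2 + M ≤ d) (z : Fin n × Fin d) : Dt 1 ((net C code M).inp z) := by
  show Dt 1 (fun σ : Fin M → Bool => vecA d code σ z.1 z.2)
  by_cases hi : z.1.1 = 0
  · have h1 : ∀ σ : Fin M → Bool, vecA d code σ z.1 z.2 =
        lay d false (fun _ : Fin L => false) true σ z.2 := by
      intro σ
      unfold vecA
      rw [if_pos hi]
    by_cases hx : ∃ e : Fin M, z.2.1 = L + 2 + e.1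
    · obtain ⟨e, he⟩ := hx
      have h2 : z.2 = ⟨L + 2 + e.1, by omega⟩ := Fin.ext he
      refine Or.inr ⟨e, fun b σ τ => ?_⟩
      show vecA d code (Function.update σ e b) z.1 z.2 =
        vecA d code (Function.update τ e b) z.1 z.2
      rw [h1, h1, h2, lay_dat hd, lay_dat hd, Function.update_self, Function.update_self]
    · refine Dt.of_const fun σ τ => ?_
      show vecA d code σ z.1 z.2 = vecA d code τ z.1 z.2
      rw [h1, h1]
      exact lay_other _ _ _ _ _ _ fun e he => hx ⟨e, he⟩
  · refine Dt.of_const fun σ τ => ?_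
    show vecA d code σ z.1 z.2 = vecA d code τ z.1 z.2
    unfold vecA
    rw [if_neg hi, if_neg hi]

end Pool.Agent.H2.PF
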