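import Pool.Agent.H2.PF.Goo
import Pool.Agent.H2.PF.Enc
import Pool.Agent.H2.PF.Val

/-! Averaging over the restrictions: if the algorithm is correct on two thirds of the instances, at
least `1/48` of the restrictions is bad.

PROOF. Let `Θ := Fin M → Ξ`, `R := card Θ > 0`, `N := 2^(8 j) = card U`, `W := 2^2^(8 j) =
card (Finset U)` for `U := Fin (8 j) → Bool`. (1) The number of correct triples is at least
`2/3 * (R * (N * W))` (`hC` and `Finset.card_filter_add_card_filter_not`; compare `correct_ge`,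
`card_trip`, `arith_corr` in Pool/Agent/Results/MP_0f984e_lc/PolynomialMethod.lean) and it is equal to
`∑ θ, ∑ G, card {u | correct}` (`sum_trip` there: `Fintype.sum_prod_type`, `Finset.sum_comm`).
(2) For a restriction `θ` which is not bad put `a := encA out (sel θ) θ`, `b := encB (sel θ)`.
`enc_orth` gives `hab`, and `enc_dt` (with `k := 8 * j > 0`) gives `hdt` of `good_theta` from the
second part of `¬ Bad`; `small_term` bounds the error term, so
`∑ G, card {u | correct} ≤ W * N * (5/8 + 1/48) = W * N * (31/48)`.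
(3) For a bad `θ` it is at most `W * N` (`Finset.card_le_univ`, `Fintype.card_finset`).
So `2/3 * (R * N * W) ≤ ∑ θ, (W N 31/48 + (if Bad then W N else 0)) = R * W * N * 31/48 +
W * N * card {Bad}` and `card {Bad} = R * pr Bad` by definition of `pr`, `av`
(Pool/Agent/H58/OVAC/Avg.lean; `Finset.sum_boole`). Divide by `R * W * N > 0`:
`2/3 ≤ 31/48 + pr Bad`. -/

set_option autoImplicit false
set_option maxHeartbeats 4000000

namespace Pool.Agent.H2.PF

open Pool.Agent.H58.PM Pool.Agent.H58.OVT Pool.Agent.H58.OVAC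

section

variable {F : Type} [Field F] {n d T s q w pA pB : ℕ} {P : Partition n pA pB} {j M L : ℕ}
  {code : Fin n → Fin L → Bool} {pos : (Fin (8 * j) → Bool) → Fin n} {Ξ : Type}

/-- The restriction `θ` is bad: the chosen coordinates are not different and alive, or some feature
is not simple. -/
def Bad (circ : Fin q → Circuit n d T s) (code : Fin n → Fin L → Bool) (out : Ξ → Option Bool)
    (j : ℕ) (sel : Fin (8 * j) × Bool → Fin M) (θ : Fin M → Ξ) : Prop :=
  ¬ (Function.Injective sel ∧ ∀ p, out (θ (sel p)) = none) ∨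
  ∃ (j' : Fin q) (g : Fin s), ¬ Dt j (fun σ => (circ j').value (vecA d code (fill out θ σ)) g)

open Classical in
private theorem card_trip {Θ : Type} [Fintype Θ] :
    (Fintype.card (Θ × (Fin (8 * j) → Bool) × Finset (Fin (8 * j) → Bool)) : ℝ) =
    Fintype.card Θ * (2 ^ (8 * j) * 2 ^ 2 ^ (8 * j)) := by
  rw [Fintype.card_prod, Fintype.card_prod, Fintype.card_finset]
  have h1 : Fintype.card (Fin (8 * j) → Bool) = 2 ^ (8 * j) := by simp
  rw [h1]
  push_cast
  rfl

open Classical in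
private theorem sum_trip {Θ : Type} [Fintype Θ]
    (A : Θ × (Fin (8 * j) → Bool) × Finset (Fin (8 * j) → Bool) → Prop) :
    ((Finset.univ.filter A).card : ℝ) =
      ∑ θ : Θ, ∑ G : Finset (Fin (8 * j) → Bool),
      ((Finset.univ.filter fun u => A (θ, u, G)).card : ℝ) := by
  rw [Finset.card_filter]
  push_cast
  rw [Fintype.sum_prod_type]
  apply Finset.sum_congr rfl
  intro θ _
  rw [Fintype.sum_prod_type, Finset.sum_comm]
  apply Finset.sum_congr rfl
  intro G _
  rw [Finset.card_filter]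
  push_cast
  rfl

private theorem arith_corr {a b t R N W : ℝ} (h1 : a + b = t) (h2 : 3 * b ≤ t)
    (h3 : t = R * (N * W)) : 2 / 3 * (R * (N * W)) ≤ a := by
  subst h3
  linarith

open Classical in
private theorem correct_ge {Θ : Type} [Fintype Θ]
    (A : Θ × (Fin (8 * j) → Bool) × Finset (Fin (8 * j) → Bool) → Prop)
    (hC : 3 * (Finset.univ.filter fun τ => ¬ A τ).card ≤
      Fintype.card (Θ × (Fin (8 * j) → Bool) × Finset (Fin (8 * j) → Bool))) :
    2 / 3 * ((Fintype.card Θ : ℝ) * (2 ^ (8 * j) * 2 ^ 2 ^ (8 * j))) ≤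
    ∑ θ : Θ, ∑ G : Finset (Fin (8 * j) → Bool),
      ((Finset.univ.filter fun u => A (θ, u, G)).card : ℝ) := by
  rw [← sum_trip]
  refine arith_corr (b := ((Finset.univ.filter fun τ => ¬ A τ).card : ℝ)) ?_ ?_ card_trip
  · rw [← Nat.cast_add, Finset.card_filter_add_card_filter_not, Finset.card_univ]
  · have h1 := (Nat.cast_le (α := ℝ)).2 hC
    rw [Nat.cast_mul] at h1
    exact h1

private theorem arith_fin {R N W x Y : ℝ} (hR : 0 < R) (hN : 0 < N) (hW : 0 < W)
    (h1 : 2 / 3 * (R * (N * W)) ≤ Y) (h2 : Y ≤ R * (W * N * (31 / 48)) + W * N * (x * R)) :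
    1 / 48 ≤ x := by
  have h3 : 0 < R * (N * W) := by positivity
  have h4 : 1 / 48 * (R * (N * W)) ≤ x * (R * (N * W)) := by nlinarith
  exact le_of_mul_le_mul_right h4 h3

open Classical in
private theorem upper_theta [Fintype Ξ] (out : Ξ → Option Bool)
    (sel : Fin (8 * j) × Bool → Fin M)
    (C : Algorithm F n d T s q w pA pB P) (hn : 0 < n) (hj : 14 ≤ j)
    (hq : q ^ 2 ≤ 2 ^ j) (hw : w ^ 2 ≤ 2 ^ j) (hd : L + 2 + M ≤ d) (J0 : Fin pB)
    (hJ0 : ∀ v, P.groupB (pos v) = J0) (hpos : Function.Injective pos) (θ : Fin M → Ξ) :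
    ∑ G : Finset (Fin (8 * j) → Bool),
      ((Finset.univ.filter fun u =>
        C.CorrectOn (inst d code pos (encA out sel θ) (encB sel) u G)).card : ℝ) ≤
      2 ^ 2 ^ (8 * j) * 2 ^ (8 * j) * (31 / 48) + 2 ^ 2 ^ (8 * j) * 2 ^ (8 * j) *
        (if Bad (fun j' => C.circuit (P.groupA ⟨0, hn⟩) J0 j') code out j sel θ then 1 else 0) := by
  obtain ⟨N, hN⟩ : ∃ N : ℝ, N = 2 ^ (8 * j) := ⟨_, rfl⟩
  obtain ⟨W, hW⟩ : ∃ W : ℝ, W = 2 ^ 2 ^ (8 * j) := ⟨_, rfl⟩
  have hWN : 0 ≤ W * N := by rw [hN, hW]; positivity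
  by_cases hθ : Bad (fun j' => C.circuit (P.groupA ⟨0, hn⟩) J0 j') code out j sel θ
  · rw [if_pos hθ]
    have h1 : ∑ G : Finset (Fin (8 * j) → Bool),
        ((Finset.univ.filter fun u =>
          C.CorrectOn (inst d code pos (encA out sel θ) (encB sel) u G)).card : ℝ) ≤
        ∑ _G : Finset (Fin (8 * j) → Bool), N := by
      apply Finset.sum_le_sum
      intro G _
      have h2 : (Finset.univ.filter fun u =>
          C.CorrectOn (inst d code pos (encA out sel θ) (encB sel) u G)).card ≤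
          2 ^ (8 * j) := by
        refine (Finset.card_le_univ _).trans ?_
        simp
      rw [hN]
      exact_mod_cast h2
    rw [Finset.sum_const, Finset.card_univ, Fintype.card_finset, nsmul_eq_mul] at h1
    have h2 : Fintype.card (Fin (8 * j) → Bool) = 2 ^ (8 * j) := by simp
    rw [h2] at h1
    push_cast at h1
    rw [← hW] at h1
    rw [← hN, ← hW]
    refine h1.trans ?_
    have h3 : 0 ≤ W * N * (31 / 48) := by positivity
    linarith
  · rw [if_neg hθ, mul_zero, add_zero]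
    unfold Bad at hθ
    push Not at hθ
    obtain ⟨⟨hinj, hal⟩, hdt⟩ := hθ
    refine (good_theta C hn (le_trans (by norm_num) hj) hd J0 hJ0 hpos
      (enc_orth hinj hal) (fun j' g => enc_dt (f := fun y =>
        (C.circuit (P.groupA ⟨0, hn⟩) J0 j').value (vecA d code y) g) hinj (by omega)
        (hdt j' g))).trans ?_
    have h1 := small_term (q := q) (w := w) hj hq hw
    rw [← hN, ← hW]
    apply mul_le_mul_of_nonneg_left _ hWN
    linarith

open Classical in
theorem core [Fintype Ξ] [Nonempty Ξ] (out : Ξ → Option Bool)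
    (sel : (Fin M → Ξ) → Fin (8 * j) × Bool → Fin M)
    (C : Algorithm F n d T s q w pA pB P) (hn : 0 < n) (hj : 14 ≤ j)
    (hq : q ^ 2 ≤ 2 ^ j) (hw : w ^ 2 ≤ 2 ^ j) (hd : L + 2 + M ≤ d) (J0 : Fin pB)
    (hJ0 : ∀ v, P.groupB (pos v) = J0) (hpos : Function.Injective pos)
    (hC : 3 * (Finset.univ.filter fun τ : (Fin M → Ξ) × (Fin (8 * j) → Bool) ×
        Finset (Fin (8 * j) → Bool) =>
      ¬ C.CorrectOn (inst d code pos (encA out (sel τ.1) τ.1) (encB (sel τ.1)) τ.2.1
        τ.2.2)).card ≤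
      Fintype.card ((Fin M → Ξ) × (Fin (8 * j) → Bool) × Finset (Fin (8 * j) → Bool))) :
    1 / 48 ≤ pr (fun θ : Fin M → Ξ =>
      Bad (fun j' => C.circuit (P.groupA ⟨0, hn⟩) J0 j') code out j (sel θ) θ) := by
  have hcorr := correct_ge (fun τ : (Fin M → Ξ) × (Fin (8 * j) → Bool) ×
    Finset (Fin (8 * j) → Bool) =>
      C.CorrectOn (inst d code pos (encA out (sel τ.1) τ.1) (encB (sel τ.1)) τ.2.1 τ.2.2)) hC
  clear hC
  have hR : (0 : ℝ) < Fintype.card (Fin M → Ξ) := Nat.cast_pos.2 Fintype.card_pos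
  refine arith_fin hR (show (0 : ℝ) < 2 ^ (8 * j) by positivity)
    (show (0 : ℝ) < 2 ^ 2 ^ (8 * j) by positivity) hcorr ?_
  refine (Finset.sum_le_sum fun θ _ =>
    upper_theta out (sel θ) C hn hj hq hw hd J0 hJ0 hpos θ).trans (le_of_eq ?_)
  rw [Finset.sum_add_distrib, Finset.sum_const, ← Finset.mul_sum, Finset.card_univ,
    nsmul_eq_mul]
  congr 2
  unfold pr av
  rw [div_mul_cancel₀ _ hR.ne']

end

end Pool.Agent.H2.PF
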