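import Mathlib

set_option autoImplicit false
set_option maxHeartbeats 4000000

namespace Pool.Agent.H2.PF

/-! ### Orthogonal Vectors -/

/-- Positions of the `2n` input vectors: `(false, i)` is the `i`-th vector of `A`, and
`(true, j)` is the `j`-th vector of `B`. -/
abbrev Pos (n : ℕ) : Type := Bool × Fin n

/-- Vectors in `{0,1}^d`. -/
abbrev Vec (d : ℕ) : Type := Fin d → Bool

/-- An input: `n` vectors of `A` and `n` vectors of `B`, all in `{0,1}^d`. -/
abbrev Input (n d : ℕ) : Type := Pos n → Vec d

/-- Valid inputs: each of the two sets is listed in strictly increasing lexicographic order (so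
each consists of exactly `n` distinct vectors, written in the canonical order). -/
def IsValid {n d : ℕ} (x : Input n d) : Prop :=
  StrictMono (fun i : Fin n => toLex (x (false, i))) ∧
  StrictMono (fun j : Fin n => toLex (x (true, j)))

/-- The answer to the Orthogonal Vectors question: some vector of `A` and some vector of `B` have
inner product `0` over the integers. -/
def HasOrthogonalPair {n d : ℕ} (x : Input n d) : Prop :=
  ∃ i j : Fin n, ∑ k : Fin d, (x (false, i) k).toNat * (x (true, j) k).toNat = 0

/-! ### Circuits of constant depth -/

/-- A circuit with `s` gates in `T` layers which reads `n` vectors. A gate is the AND of any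
number of literals: the literal `(z, b)` means that the input bit or the gate `z` (of a lower
layer) has the value `b`, so NOT and OR gates are included; the input bit `(i, k)` is the bit `k`
of the vector `i`. -/
structure Circuit (n d T s : ℕ) where
  /-- the layer of a gate -/
  layer : Fin s → Fin T
  /-- the literals of a gate -/
  lits : Fin s → Finset (((Fin n × Fin d) ⊕ Fin s) × Bool)
  /-- a gate reads only input bits and gates of lower layers -/
  lower : ∀ g, ∀ q ∈ lits g, ∀ h, q.1 = Sum.inr h → layer h < layer g

variable {n d T s : ℕ}

/-- The values of the gates after `t` layers have been evaluated. -/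
def Circuit.valueAt (C : Circuit n d T s) (x : Fin n → Vec d) : ℕ → Fin s → Bool
  | 0, _ => false
  | t + 1, g => decide (∀ q ∈ C.lits g,
      Sum.elim (fun z : Fin n × Fin d => x z.1 z.2) (C.valueAt x t) q.1 = q.2)

/-- The value of a gate: it is true if all literals of the gate are true (theorem
`value_iff`). -/
def Circuit.value (C : Circuit n d T s) (x : Fin n → Vec d) (g : Fin s) : Bool :=
  C.valueAt x ((C.layer g : ℕ) + 1) g

/-- The circuit reads only bits of the vectors at the positions in `R`. -/
def Circuit.Reads (C : Circuit n d T s) (R : Set (Fin n)) : Prop :=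
  ∀ g, ∀ q ∈ C.lits g, ∀ z, q.1 = Sum.inl z → z.1 ∈ R

/-! ### The polynomial method -/

/-- The admissible tests of a number `v` of the field `F`: whether `v` is nonzero; whether `v` is
positive, for some ordering of the field `F`; and, if `F` has at most `2 ^ w` elements, every
test. -/
def IsTest {F : Type} [Field F] (w : ℕ) (R : F → Prop) : Prop :=
  (∀ v, R v ↔ v ≠ 0) ∨
  (∃ (_ : LinearOrder F) (_ : IsStrictOrderedRing F), ∀ v, R v ↔ 0 < v) ∨
  (Finite F ∧ Nat.card F ≤ 2 ^ w)

/-- A partition of the positions of the list `A` into `pA` groups, and of the positions of the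
list `B` into `pB` groups. -/
structure Partition (n pA pB : ℕ) where
  /-- the group of a position of `A` -/
  groupA : Fin n → Fin pA
  /-- the group of a position of `B` -/
  groupB : Fin n → Fin pB

/-- An algorithm of the polynomial method over the field `F` with `q` tests for every pair of
groups. For every group `I` of `A`, every group `J` of `B` and every `j < q` there is a circuit
with `s` gates in `T` layers which reads only vectors of the group `I`; its gates are the
features. For every gate there is a weight, which depends in an arbitrary way on the vectors of the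
group `J`. The algorithm computes the sum `∑_g value of the gate g * weight of g` and applies a
test to it. The outcomes of the `q` tests for the pair `(I, J)` decide in an arbitrary way whether
the pair `(I, J)` is accepted. -/
structure Algorithm (F : Type) [Field F] (n d T s q w pA pB : ℕ) (P : Partition n pA pB) where
  /-- the circuits which compute the features -/
  circuit : Fin pA → Fin pB → Fin q → Circuit n d T s
  /-- the features of a pair `(I, J)` read only vectors of the group `I` of `A` -/
  reads : ∀ I J j, (circuit I J j).Reads {i | P.groupA i = I}
  /-- the weights -/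
  weight : Fin pA → Fin pB → Fin q → Fin s → (Fin n → Vec d) → F
  /-- the weights of a pair `(I, J)` depend only on the vectors of the group `J` of `B` -/
  weight_group : ∀ (I : Fin pA) (J : Fin pB) (j : Fin q) (g : Fin s) (y y' : Fin n → Vec d),
    (∀ i, P.groupB i = J → y i = y' i) → weight I J j g y = weight I J j g y'
  /-- the tests -/
  test : Fin pA → Fin pB → Fin q → F → Prop
  /-- the tests are admissible -/
  isTest : ∀ I J j, IsTest w (test I J j)
  /-- the decision for a pair of groups -/
  verdict : Fin pA → Fin pB → (Fin q → Prop) → Prop

variable {F : Type} [Field F] {q w pA pB : ℕ} {P : Partition n pA pB}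

/-- The sum to which the `j`-th test of the pair `(I, J)` is applied. -/
noncomputable def Algorithm.entry (C : Algorithm F n d T s q w pA pB P) (I : Fin pA) (J : Fin pB)
    (j : Fin q) (x : Input n d) : F :=
  ∑ g : Fin s, (if (C.circuit I J j).value (fun i => x (false, i)) g = true then (1 : F) else 0) *
    C.weight I J j g (fun i => x (true, i))

/-- The pair `(I, J)` of groups is accepted. -/
def Algorithm.Acc (C : Algorithm F n d T s q w pA pB P) (I : Fin pA) (J : Fin pB)
    (x : Input n d) : Prop :=
  C.verdict I J (fun j => C.test I J j (C.entry I J j x))

/-- The algorithm answers yes if some pair of groups is accepted. -/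
def Algorithm.Accepts (C : Algorithm F n d T s q w pA pB P) (x : Input n d) : Prop :=
  ∃ I J, C.Acc I J x

/-- The algorithm answers the Orthogonal Vectors question correctly on input `x`. -/
def Algorithm.CorrectOn (C : Algorithm F n d T s q w pA pB P) (x : Input n d) : Prop :=
  C.Accepts x ↔ HasOrthogonalPair x

/-- The algorithm computes `q` matrix products: the features depend only on the group of `A`, and
the weights depend only on the group of `B` and on the test. -/
def Algorithm.IsProduct (C : Algorithm F n d T s q w pA pB P) : Prop :=
  (∀ I J J' j j', C.circuit I J j = C.circuit I J' j') ∧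
  ∀ I I' J j g y, C.weight I J j g y = C.weight I' J j g y

/-! ### Values -/

theorem valueAt_eq (C : Circuit n d T s) (x : Fin n → Vec d) (t : ℕ) (g : Fin s)
    (h : (C.layer g : ℕ) < t) : C.valueAt x t g = C.value x g := by
  have main : ∀ m : ℕ, ∀ g : Fin s, (C.layer g : ℕ) = m → ∀ t, m < t →
      C.valueAt x t g = C.value x g := by
    intro m
    induction m using Nat.strong_induction_on with
    | _ m ih =>
      intro g hg t ht
      obtain ⟨t', rfl⟩ : ∃ t', t = t' + 1 := ⟨t - 1, by omega⟩
      unfold Circuit.value
      rw [hg]
      show decide (∀ q ∈ C.lits g, Sum.elim _ (C.valueAt x t') q.1 = q.2) =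
        decide (∀ q ∈ C.lits g, Sum.elim _ (C.valueAt x m) q.1 = q.2)
      congr 1
      apply propext
      refine forall₂_congr fun q hq => ?_
      obtain ⟨z, b⟩ := q
      rcases z with z | h
      · exact Iff.rfl
      · have h1 : (C.layer h : ℕ) < m := by
          have := C.lower g _ hq h rfl
          rw [Fin.lt_def, hg] at this
          exact this
        show C.valueAt x t' h = b ↔ C.valueAt x m h = b
        rw [ih _ h1 h rfl t' (by omega), ih _ h1 h rfl m h1]
  exact main _ g rfl t h

/-- A gate is true if and only if all its literals are true. -/
theorem value_iff (C : Circuit n d T s) (x : Fin n → Vec d) (g : Fin s) :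
    C.value x g = true ↔ ∀ q ∈ C.lits g,
      Sum.elim (fun z : Fin n × Fin d => x z.1 z.2) (C.value x) q.1 = q.2 := by
  show decide (∀ q ∈ C.lits g, Sum.elim _ (C.valueAt x (C.layer g)) q.1 = q.2) = true ↔ _
  rw [decide_eq_true_iff]
  refine forall₂_congr fun q hq => ?_
  obtain ⟨z, b⟩ := q
  rcases z with z | h
  · exact Iff.rfl
  · show C.valueAt x (C.layer g) h = b ↔ C.value x h = b
    rw [valueAt_eq C x _ h (C.lower g _ hq h rfl)]

/-- The values depend only on the vectors which are read. -/
theorem value_congr (C : Circuit n d T s) {R : Set (Fin n)} (hC : C.Reads R)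
    {x x' : Fin n → Vec d} (h : ∀ i ∈ R, x i = x' i) (g : Fin s) : C.value x g = C.value x' g := by
  have main : ∀ t : ℕ, ∀ g, C.valueAt x t g = C.valueAt x' t g := by
    intro t
    induction t with
    | zero => intro g; rfl
    | succ t ih =>
      intro g
      show decide (∀ q ∈ C.lits g, Sum.elim _ (C.valueAt x t) q.1 = q.2) =
        decide (∀ q ∈ C.lits g, Sum.elim _ (C.valueAt x' t) q.1 = q.2)
      congr 1
      apply propext
      refine forall₂_congr fun q hq => ?_
      obtain ⟨z, b⟩ := q
      rcases z with z | g'
      · show x z.1 z.2 = b ↔ x' z.1 z.2 = b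
        rw [h z.1 (hC g _ hq z rfl)]
      · show C.valueAt x t g' = b ↔ C.valueAt x' t g' = b
        rw [ih g']
  exact main _ g

end Pool.Agent.H2.PF
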