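import Pool.Agent.H58.OVT.Dt
import Pool.Agent.H58.PM.Terms

/-! A function with a decision tree of depth `t` is a linear combination of conjunctions of at most
`t` literals (`PM.Val`, `PM.size` in Pool/Agent/H58/PM/Terms.lean).

PROOF. Let `Sp t` be the span in `(Fin k → Bool) → F` of the functions
`term τ := fun u => if Val τ u then 1 else 0` with `size τ ≤ t` (a `Submodule F`; the span of the
range of `fun τ : {τ // size τ ≤ t} => term τ.1`). (a) The constants `c` are in `Sp t`: `τ = fun _ =>
none` has size `0` and `Val τ u` always. (b) If `g ∈ Sp t` then for all `i b` the function
`fun u => if u i = b then g u else 0` is in `Sp (t + 1)`: `Submodule.span_induction`; for `g = term τ`: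
if `τ i = some (!b)` the function is `0`; otherwise it is `term (update τ i (some b))`, whose size is
at most `size τ + 1` (the filter is contained in `insert i` of the old one), because for such `τ`:
`Val (update τ i (some b)) u ↔ u i = b ∧ Val τ u`. (The map `g ↦ (if u i = b then g u else 0)` is
linear, so sums and multiples are clear.) (c) By induction on `t`: if `Dt t f` then
`fun u => if f u = true then 1 else 0` is in `Sp t`: constant `f`: (a). If `f` queries `i`: with
`f_b := fun u => f (update u i b)`, `Dt t f_b`,
`[f u] = (if u i = true then [f_true u] else 0) + (if u i = false then [f_false u] else 0)`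
because `update u i (u i) = u`. (d) An element of the span of the range of a finite family is a
combination of the family: `Submodule.mem_span_range_iff_exists_fun`. -/

set_option autoImplicit false
set_option maxHeartbeats 4000000

namespace Pool.Agent.H2.PF

open Pool.Agent.H58.OVT Pool.Agent.H58.PM

open Classical in
private noncomputable def spnT {F : Type} [Field F] {k : ℕ} (τ : Fin k → Option Bool) :
    (Fin k → Bool) → F := fun u => if Val τ u then 1 else 0

private def spnS (F : Type) [Field F] (k t : ℕ) : Submodule F ((Fin k → Bool) → F) :=
  Submodule.span F (Set.range fun τ : {τ : Fin k → Option Bool // size τ ≤ t} => spnT τ.1)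

private theorem spn_mem {F : Type} [Field F] {k t : ℕ} {τ : Fin k → Option Bool}
    (h : size τ ≤ t) : (spnT τ : (Fin k → Bool) → F) ∈ spnS F k t :=
  Submodule.subset_span ⟨⟨τ, h⟩, rfl⟩

private theorem spn_const {F : Type} [Field F] {k t : ℕ} (c : F) :
    (fun _ : Fin k → Bool => c) ∈ spnS F k t := by
  have h1 : (fun _ : Fin k → Bool => c) = c • (spnT (fun _ => none) : (Fin k → Bool) → F) := by
    funext u
    show c = c * spnT (fun _ => none) u
    unfold spnT
    rw [if_pos (by
      intro κ b h
      exact absurd h (by simp)), mul_one]
  rw [h1]
  refine Submodule.smul_mem _ _ (spn_mem ?_)
  unfold size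
  simp

private theorem spn_cond {F : Type} [Field F] {k t : ℕ} (i : Fin k) (b : Bool)
    {g : (Fin k → Bool) → F} (hg : g ∈ spnS F k t) :
    (fun u => if u i = b then g u else 0) ∈ spnS F k (t + 1) := by
  classical
  let ψ : ((Fin k → Bool) → F) →ₗ[F] ((Fin k → Bool) → F) :=
    { toFun := fun g u => if u i = b then g u else 0
      map_add' := by
        intro g g'
        funext u
        show (if u i = b then g u + g' u else 0) =
          (if u i = b then g u else 0) + (if u i = b then g' u else 0)
        split_ifs
        · rfl
        · rw [add_zero]
      map_smul' := by
        intro c g
        funext u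
        show (if u i = b then c * g u else 0) = c * (if u i = b then g u else 0)
        split_ifs
        · rfl
        · rw [mul_zero] }
  have h1 : spnS F k t ≤ (spnS F k (t + 1)).comap ψ := by
    unfold spnS
    rw [Submodule.span_le]
    rintro _ ⟨⟨τ, hτ⟩, rfl⟩
    show ψ (spnT τ) ∈ spnS F k (t + 1)
    by_cases hi : τ i = some (!b)
    · have h2 : ψ (spnT τ : (Fin k → Bool) → F) = 0 := by
        funext u
        show (if u i = b then (spnT τ u : F) else 0) = 0
        by_cases hu : u i = b
        · rw [if_pos hu]
          unfold spnT
          rw [if_neg]
          intro hV
          have h3 := hV i _ hi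
          rw [hu] at h3
          cases b <;> simp at h3
        · rw [if_neg hu]
      rw [h2]
      exact Submodule.zero_mem _
    · have h2 : ψ (spnT τ : (Fin k → Bool) → F) = spnT (Function.update τ i (some b)) := by
        funext u
        show (if u i = b then (spnT τ u : F) else 0) = spnT (Function.update τ i (some b)) u
        have h3 : Val (Function.update τ i (some b)) u ↔ u i = b ∧ Val τ u := by
          constructor
          · intro h
            have h4 : u i = b := h i b (by rw [Function.update_self])
            refine ⟨h4, fun κ c hc => ?_⟩
            by_cases hκ : κ = i
            · subst hκ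
              rw [h4]
              cases b <;> cases c <;> simp_all
            · exact h κ c (by rw [Function.update_of_ne hκ]; exact hc)
          · rintro ⟨h4, h5⟩ κ c hc
            by_cases hκ : κ = i
            · subst hκ
              rw [Function.update_self] at hc
              rw [h4]
              exact Option.some.inj hc
            · rw [Function.update_of_ne hκ] at hc
              exact h5 κ c hc
        unfold spnT
        by_cases hu : u i = b
        · rw [if_pos hu]
          by_cases hV : Val τ u
          · rw [if_pos hV, if_pos (h3.2 ⟨hu, hV⟩)]
          · rw [if_neg hV, if_neg fun h => hV (h3.1 h).2]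
        · rw [if_neg hu, if_neg fun h => hu (h3.1 h).1]
      rw [h2]
      apply spn_mem
      have h4 : (Finset.univ.filter fun κ => Function.update τ i (some b) κ ≠ none) ⊆
          insert i (Finset.univ.filter fun κ => τ κ ≠ none) := by
        intro κ hκ
        by_cases h5 : κ = i
        · rw [h5]
          exact Finset.mem_insert_self _ _
        · refine Finset.mem_insert_of_mem ?_
          rw [Finset.mem_filter] at hκ ⊢
          rw [Function.update_of_ne h5] at hκ
          exact hκ
      have h5 := (Finset.card_le_card h4).trans (Finset.card_insert_le _ _)
      unfold size at hτ ⊢
      omega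
  exact h1 hg

private theorem spn_dt {F : Type} [Field F] {k t : ℕ} : ∀ {f : (Fin k → Bool) → Bool}, Dt t f →
    (fun u => if f u = true then (1 : F) else 0) ∈ spnS F k t := by
  induction t with
  | zero =>
    intro f hf
    have h1 : (fun u => if f u = true then (1 : F) else 0) =
        fun _ : Fin k → Bool => if f (fun _ => false) = true then (1 : F) else 0 := by
      funext u
      rw [hf u (fun _ => false)]
    rw [h1]
    exact spn_const _
  | succ t ih =>
    intro f hf
    rcases hf with hf | ⟨i, hi⟩
    · have h1 : (fun u => if f u = true then (1 : F) else 0) =
          fun _ : Fin k → Bool => if f (fun _ => false) = true then (1 : F) else 0 := by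
        funext u
        rw [hf u (fun _ => false)]
      rw [h1]
      exact spn_const _
    · have h1 := spn_cond i true (ih (hi true))
      have h2 := spn_cond i false (ih (hi false))
      have h3 := Submodule.add_mem _ h1 h2
      have h4 : ((fun u : Fin k → Bool => if u i = true then
            (if f (Function.update u i true) = true then (1 : F) else 0) else 0) +
          fun u : Fin k → Bool => if u i = false then
            (if f (Function.update u i false) = true then (1 : F) else 0) else 0) =
          fun u => if f u = true then (1 : F) else 0 := by
        funext u
        show (if u i = true then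
            (if f (Function.update u i true) = true then (1 : F) else 0) else 0) +
          (if u i = false then
            (if f (Function.update u i false) = true then (1 : F) else 0) else 0) = _
        cases hu : u i
        · have h5 : Function.update u i false = u := by
            rw [← hu, Function.update_eq_self]
          rw [h5]
          simp
        · have h5 : Function.update u i true = u := by
            rw [← hu, Function.update_eq_self]
          rw [h5]
          simp
      rw [h4] at h3
      exact h3

open Classical in
theorem dt_span {F : Type} [Field F] {k t : ℕ} {f : (Fin k → Bool) → Bool} (hf : Dt t f) :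
    ∃ c : {τ : Fin k → Option Bool // size τ ≤ t} → F, ∀ u : Fin k → Bool,
      (if f u = true then (1 : F) else 0) = ∑ τ, c τ * (if Val τ.1 u then 1 else 0) := by
  obtain ⟨c, hc⟩ := Submodule.mem_span_range_iff_exists_fun F |>.1 (spn_dt (F := F) hf)
  refine ⟨c, fun u => ?_⟩
  have h1 := congrFun hc u
  rw [← h1, Finset.sum_apply]
  rfl

end Pool.Agent.H2.PF
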