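import Pool.Agent.H2.PF.Acc
import Pool.Agent.H2.PF.Spn

/-! The entries for the relevant pair of groups are combinations of few conjunctions.

PROOF. `dt_span` for every gate `g` gives `c g` with `[value of g at vecA (a u)] = ∑ τ, c g τ * [Val τ u]`.
`C.entry` of the instance: the list `A` of `inst d code pos a b u G` is `vecA d code (a u)` and the
list `B` is `vecB d code pos b G`, by definition (`rfl`). So
`C.entry ... = ∑ g, (∑ τ, c g τ * [Val τ u]) * weight g (vecB ...)`; exchange the sums
(`Finset.sum_comm`), the coefficient of `τ` is `∑ g, c g τ * C.weight _ J j g (vecB d code pos b G)`.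
Compare `entry_inst` in Pool/Agent/Results/MP_0f984e_lc/PolynomialMethod.lean. -/

set_option autoImplicit false
set_option maxHeartbeats 4000000

namespace Pool.Agent.H2.PF

open Pool.Agent.H58.PM Pool.Agent.H58.OVT

open Classical in
theorem entry_inst {F : Type} [Field F] {n d T s q w pA pB : ℕ} {P : Partition n pA pB}
    {k M L t : ℕ} {code : Fin n → Fin L → Bool} {pos : (Fin k → Bool) → Fin n}
    (C : Algorithm F n d T s q w pA pB P) (I : Fin pA) (J : Fin pB) (j : Fin q)
    (a b : (Fin k → Bool) → Fin M → Bool)
    (hdt : ∀ g, Dt t (fun u => (C.circuit I J j).value (vecA d code (a u)) g))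
    (G : Finset (Fin k → Bool)) :
    ∃ c : {τ : Fin k → Option Bool // size τ ≤ t} → F, ∀ u : Fin k → Bool,
      C.entry I J j (inst d code pos a b u G) = ∑ τ, c τ * (if Val τ.1 u then 1 else 0) := by
  choose c hc using fun g => dt_span (F := F) (hdt g)
  refine ⟨fun τ => ∑ g, c g τ * C.weight I J j g (vecB d code pos b G), fun u => ?_⟩
  have h1 : C.entry I J j (inst d code pos a b u G) =
      ∑ g : Fin s, (if (C.circuit I J j).value (vecA d code (a u)) g = true then (1 : F) else 0) *
        C.weight I J j g (vecB d code pos b G) := rfl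
  rw [h1]
  have h2 : ∀ g : Fin s,
      (if (C.circuit I J j).value (vecA d code (a u)) g = true then (1 : F) else 0) *
        C.weight I J j g (vecB d code pos b G) =
      ∑ τ, c g τ * C.weight I J j g (vecB d code pos b G) * (if Val τ.1 u then 1 else 0) := by
    intro g
    rw [hc g u, Finset.sum_mul]
    refine Finset.sum_congr rfl fun τ _ => ?_
    ring
  rw [Finset.sum_congr rfl fun g _ => h2 g, Finset.sum_comm]
  refine Finset.sum_congr rfl fun τ _ => ?_
  rw [Finset.sum_mul]

end Pool.Agent.H2.PF
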