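import Pool.Agent.H2.PF.Ent
import Pool.Agent.H58.PM.Vc
import Pool.Agent.H58.PM.Count

/-! Counting: for fixed codes with simple features the algorithm is correct on at most `31/48` of the
pairs `(u, G)`. Adapted from the old file. -/

set_option autoImplicit false
set_option maxHeartbeats 4000000

namespace Pool.Agent.H2.PF

open Pool.Agent.H58.PM Pool.Agent.H58.OVT

section count

variable {F : Type} [Field F] {n d T s q w pA pB : ℕ} {P : Partition n pA pB} {j M L : ℕ}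
  {code : Fin n → Fin L → Bool} {pos : (Fin (8 * j) → Bool) → Fin n}

open Classical in
theorem card_family {α ι : Type} [Fintype α] [Fintype ι] (R : F → Prop) (hR : IsTest w R)
    (φ : ι → α → F) {N0 : ℕ} (hα : Fintype.card α + 1 ≤ 2 ^ N0) (𝒜 : Finset (Finset α))
    (h𝒜 : ∀ S ∈ 𝒜, ∃ c : ι → F, ∀ x, x ∈ S ↔ R (∑ i, c i * φ i x)) :
    𝒜.card ≤ 2 ^ (max N0 w * Fintype.card ι) := by
  have h1 : (Fintype.card α + 1) ^ Fintype.card ι ≤ 2 ^ (max N0 w * Fintype.card ι) := by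
    rw [pow_mul]
    exact Nat.pow_le_pow_left (hα.trans (Nat.pow_le_pow_right (by norm_num) (le_max_left _ _))) _
  rcases hR with h | ⟨hO, hS, h⟩ | ⟨hF, h⟩
  · refine (card_ne φ 𝒜 fun S hS => ?_).trans h1
    obtain ⟨c, hc⟩ := h𝒜 S hS
    exact ⟨c, fun x => (hc x).trans (h _)⟩
  · refine (card_pos' φ 𝒜 fun S hS => ?_).trans h1
    obtain ⟨c, hc⟩ := h𝒜 S hS
    exact ⟨c, fun x => (hc x).trans (h _)⟩
  · refine (card_fin φ R 𝒜 h𝒜).trans ?_
    rw [pow_mul]
    exact Nat.pow_le_pow_left (h.trans (Nat.pow_le_pow_right (by norm_num) (le_max_right _ _))) _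

open Classical in
theorem good_theta (C : Algorithm F n d T s q w pA pB P) (hn : 0 < n) (hj : 1 ≤ j)
    (hd : L + 2 + M ≤ d) (J0 : Fin pB)
    (hJ0 : ∀ v, P.groupB (pos v) = J0) (hpos : Function.Injective pos)
    {a b : (Fin (8 * j) → Bool) → Fin M → Bool}
    (hab : ∀ u v, (∀ x, ¬ (a u x = true ∧ b v x = true)) ↔ u = v)
    (hdt : ∀ (j' : Fin q) (g : Fin s), Dt j
      (fun u => (C.circuit (P.groupA ⟨0, hn⟩) J0 j').value (vecA d code (a u)) g)) :
    (∑ G : Finset (Fin (8 * j) → Bool),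
      ((Finset.univ.filter fun u => C.CorrectOn (inst d code pos a b u G)).card : ℝ)) ≤
    2 ^ 2 ^ (8 * j) * 2 ^ (8 * j) *
      (5 / 8 + (2 * (2 ^ (max (8 * j + 1) w * 64 ^ j)) ^ q) / 2 ^ 2 ^ (8 * j - 5)) := by
  set I0 := P.groupA ⟨0, hn⟩ with hI0
  let φ : {τ : Fin (8 * j) → Option Bool // size τ ≤ j} → (Fin (8 * j) → Bool) → F :=
    fun τ u => if Val τ.1 u then 1 else 0
  let 𝒜 : Fin q → Finset (Finset (Fin (8 * j) → Bool)) := fun j' =>
    Finset.univ.filter fun S =>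
      ∃ c : {τ : Fin (8 * j) → Option Bool // size τ ≤ j} → F,
        ∀ x, x ∈ S ↔ C.test I0 J0 j' (∑ τ, c τ * φ τ x)
  let ψ : (Fin (8 * j) → Bool) → Prop := fun u =>
    ∃ J ≠ J0, C.Acc I0 J (inst d code pos a b u ∅)
  let ℱ : Finset (Finset (Fin (8 * j) → Bool)) :=
    ((Finset.univ : Finset Bool) ×ˢ Fintype.piFinset 𝒜).image
      (fun x => Finset.univ.filter fun u =>
        x.1 = true ∨ ψ u ∨ C.verdict I0 J0 (fun j' => u ∈ x.2 j'))
  let p : Finset (Fin (8 * j) → Bool) → Finset (Fin (8 * j) → Bool) := fun G =>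
    Finset.univ.filter fun u => C.Accepts (inst d code pos a b u G)
  have hcardα : Fintype.card (Fin (8 * j) → Bool) = 2 ^ (8 * j) := by simp
  have h𝒜 : ∀ j', (𝒜 j').card ≤ 2 ^ (max (8 * j + 1) w * 64 ^ j) := by
    intro j'
    refine (card_family (C.test I0 J0 j') (C.isTest I0 J0 j') φ (N0 := 8 * j + 1) ?_ (𝒜 j')
      fun S hS => (Finset.mem_filter.1 hS).2).trans ?_
    · rw [hcardα, pow_succ]
      have : 1 ≤ 2 ^ (8 * j) := Nat.one_le_two_pow
      omega
    · exact Nat.pow_le_pow_right (by norm_num) (Nat.mul_le_mul_left _ (card_terms j))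
  have hℱ : ℱ.card ≤ 2 * (2 ^ (max (8 * j + 1) w * 64 ^ j)) ^ q := by
    refine Finset.card_image_le.trans ?_
    rw [Finset.card_product, Finset.card_univ, Fintype.card_bool, Fintype.card_piFinset]
    apply Nat.mul_le_mul_left
    calc ∏ j', (𝒜 j').card ≤ ∏ _j' : Fin q, 2 ^ (max (8 * j + 1) w * 64 ^ j) :=
          Finset.prod_le_prod' fun j' _ => h𝒜 j'
      _ = _ := by rw [Finset.prod_const, Finset.card_univ, Fintype.card_fin]
  have hp : ∀ G, p G ∈ ℱ := by
    intro G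
    rw [Finset.mem_image]
    refine ⟨(decide (∃ I ≠ I0, ∃ J, C.Acc I J (inst d code pos a b (fun _ => false) G)),
      fun j' => Finset.univ.filter fun u =>
        C.test I0 J0 j' (C.entry I0 J0 j' (inst d code pos a b u G))), ?_, ?_⟩
    · rw [Finset.mem_product]
      refine ⟨Finset.mem_univ _, ?_⟩
      rw [Fintype.mem_piFinset]
      intro j'
      rw [Finset.mem_filter]
      refine ⟨Finset.mem_univ _, ?_⟩
      obtain ⟨c, hc⟩ := entry_inst (code := code) (pos := pos) C I0 J0 j' a b (hdt j') G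
      refine ⟨c, fun x => ?_⟩
      simp only [Finset.mem_filter, Finset.mem_univ, true_and]
      rw [hc x]
    · ext u
      simp only [p, Finset.mem_filter, Finset.mem_univ, true_and]
      rw [accepts_iff C hn J0 hJ0 a b u G]
      simp only [decide_eq_true_eq]
      rfl
  have hco : ∀ G u, C.CorrectOn (inst d code pos a b u G) ↔
      (C.Accepts (inst d code pos a b u G) ↔ u ∈ G) := by
    intro G u
    unfold Algorithm.CorrectOn
    rw [inst_orth hn hpos hd hab u G]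
  have hagree : ∀ G, (Finset.univ.filter fun u => C.CorrectOn (inst d code pos a b u G)).card =
      agree G (p G) := by
    intro G
    apply card_eq_agree
    intro u
    rw [Finset.mem_filter, hco]
    simp only [Finset.mem_filter, Finset.mem_univ, true_and, p]
    exact ⟨fun h => h.symm, fun h => h.symm⟩
  have hN : Fintype.card (Fin (8 * j) → Bool) = 32 * 2 ^ (8 * j - 5) := by
    rw [hcardα, show (32 : ℕ) = 2 ^ 5 by norm_num, ← pow_add]
    congr 1
    omega
  have hb := agree_bound hN ℱ hℱ p hp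
  rw [hcardα] at hb
  simp_rw [hagree]
  push_cast at hb
  exact hb

theorem small_term (hj : 14 ≤ j) (hq : q ^ 2 ≤ 2 ^ j) (hw : w ^ 2 ≤ 2 ^ j) :
    (2 * ((2 : ℝ) ^ (max (8 * j + 1) w * 64 ^ j)) ^ q) / 2 ^ 2 ^ (8 * j - 5) ≤ 1 / 48 := by
  have h8 : (8 * j + 1) ^ 2 ≤ 2 ^ j := by
    obtain ⟨i, rfl⟩ : ∃ i, j = 14 + i := ⟨j - 14, by omega⟩
    clear hq hw hj
    induction i with
    | zero => norm_num
    | succ i ih =>
      have h1 : (8 * (14 + (i + 1)) + 1) ^ 2 ≤ 2 * (8 * (14 + i) + 1) ^ 2 := by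
        have h2 : 2 * (8 * (14 + i) + 1) ^ 2 =
            (8 * (14 + (i + 1)) + 1) ^ 2 + (10897 + 1680 * i + 64 * i ^ 2) := by ring
        omega
      calc (8 * (14 + (i + 1)) + 1) ^ 2 ≤ 2 * (8 * (14 + i) + 1) ^ 2 := h1
        _ ≤ 2 * 2 ^ (14 + i) := by omega
        _ = 2 ^ (14 + (i + 1)) := by ring
  have hW : (max (8 * j + 1) w) ^ 2 ≤ 2 ^ j := by
    rcases max_choice (8 * j + 1) w with h | h <;> rw [h]
    · exact h8
    · exact hw
  have hqW : q * max (8 * j + 1) w ≤ 2 ^ j := by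
    have h1 : (q * max (8 * j + 1) w) ^ 2 ≤ (2 ^ j) ^ 2 := by
      rw [mul_pow, sq (2 ^ j)]
      exact Nat.mul_le_mul hq hW
    exact (Nat.pow_le_pow_iff_left (by norm_num)).1 h1
  have hexp : 1 + max (8 * j + 1) w * 64 ^ j * q + 6 ≤ 2 ^ (8 * j - 5) := by
    have h1 : max (8 * j + 1) w * 64 ^ j * q ≤ 2 ^ (7 * j) := by
      calc max (8 * j + 1) w * 64 ^ j * q = q * max (8 * j + 1) w * 64 ^ j := by ring
        _ ≤ 2 ^ j * 64 ^ j := Nat.mul_le_mul_right _ hqW
        _ = 2 ^ (7 * j) := by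
            rw [← mul_pow, pow_mul]
            norm_num
    have h2 : 2 ^ (8 * j - 5) = 2 ^ (7 * j) * 2 ^ (j - 5) := by
      rw [← pow_add]; congr 1; omega
    have h3 : 2 ≤ 2 ^ (j - 5) := by
      calc 2 = 2 ^ 1 := by norm_num
        _ ≤ 2 ^ (j - 5) := Nat.pow_le_pow_right (by norm_num) (by omega)
    have h4 : 7 ≤ 2 ^ (7 * j) := by
      calc 7 ≤ 2 ^ 3 := by norm_num
        _ ≤ 2 ^ (7 * j) := Nat.pow_le_pow_right (by norm_num) (by omega)
    rw [h2]
    nlinarith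
  rw [← pow_mul, ← pow_succ']
  rw [div_le_div_iff₀ (by positivity) (by norm_num), one_mul]
  calc (2 : ℝ) ^ (max (8 * j + 1) w * 64 ^ j * q + 1) * 48
      ≤ (2 : ℝ) ^ (max (8 * j + 1) w * 64 ^ j * q + 1) * 2 ^ 6 := by
        gcongr; norm_num
    _ = 2 ^ (max (8 * j + 1) w * 64 ^ j * q + 1 + 6) := by rw [← pow_add]
    _ ≤ 2 ^ 2 ^ (8 * j - 5) := by
        apply pow_le_pow_right₀ (by norm_num)
        omega

end count

end Pool.Agent.H2.PF
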