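import Pool.Agent.H2.PF.Defs
import Pool.Agent.H58.PM.Layout

/-! The hard instance: vector `0` of `A` holds the data bits `a u`, all the other vectors of `A` are
inert; the vector `pos v` of `B` holds the data bits `b v` and a flag which is `0` if and only if
`v ∈ G`.

The proofs are those of `inst_valid`, `inst_orth` in
Pool/Agent/Results/MP_0f984e_lc/PolynomialMethod.lean (also Pool/Agent/H58/Old if moved), with the
codes `a`, `b` and `hab` instead of `encA θ`, `encB θ` and `encA_encB θ`; the data bits are indexed by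
`Fin M` directly (so `dat` and `Fintype.equivFin` disappear). -/

set_option autoImplicit false
set_option maxHeartbeats 4000000

namespace Pool.Agent.H2.PF

open Pool.Agent.H58.PM

section hard

variable {n d k M L : ℕ}

/-- The vectors of `A`. -/
noncomputable def vecA (d : ℕ) (code : Fin n → Fin L → Bool) (y : Fin M → Bool) (i : Fin n) :
    Vec d :=
  if i.1 = 0 then lay d false (fun _ : Fin L => false) true y
  else lay d true (code i) false (fun _ : Fin M => false)

open Classical in
/-- The vectors of `B`. -/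
noncomputable def vecB (d : ℕ) (code : Fin n → Fin L → Bool) (pos : (Fin k → Bool) → Fin n)
    (b : (Fin k → Bool) → Fin M → Bool) (G : Finset (Fin k → Bool)) (i : Fin n) : Vec d :=
  lay d true (code i) (decide (¬ ∃ v ∈ G, pos v = i))
    (fun x : Fin M => decide (∃ v, pos v = i ∧ b v x = true))

/-- The hard input. -/
noncomputable def inst (d : ℕ) (code : Fin n → Fin L → Bool) (pos : (Fin k → Bool) → Fin n)
    (a b : (Fin k → Bool) → Fin M → Bool) (u : Fin k → Bool) (G : Finset (Fin k → Bool)) :
    Input n d :=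
  fun p => if p.1 = false then vecA d code (a u) p.2 else vecB d code pos b G p.2

variable {code : Fin n → Fin L → Bool} {pos : (Fin k → Bool) → Fin n}

theorem inst_valid (hcode : ∀ i j, i < j →
      ∃ k : Fin L, (∀ l < k, code i l = code j l) ∧ code i k = false ∧ code j k = true)
    (hd : L + 2 + M ≤ d) (a b : (Fin k → Bool) → Fin M → Bool) (u : Fin k → Bool)
    (G : Finset (Fin k → Bool)) :
    IsValid (inst d code pos a b u G) := by
  constructor
  · intro i i' hii'
    have hi' : ¬ (i'.1 = 0) := by
      have : i.1 < i'.1 := hii'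
      omega
    show toLex (vecA d code (a u) i) < toLex (vecA d code (a u) i')
    unfold vecA
    rw [if_neg hi']
    by_cases hi : i.1 = 0
    · rw [if_pos hi]
      exact lay_lt_lead (by omega) _ _ _ _ _ _
    · rw [if_neg hi]
      exact lay_lt_cnt hd _ _ _ _ _ _ _ (hcode i i' hii')
  · intro i i' hii'
    show toLex (vecB d code pos b G i) < toLex (vecB d code pos b G i')
    unfold vecB
    exact lay_lt_cnt hd _ _ _ _ _ _ _ (hcode i i' hii')

theorem inst_orth (hn : 0 < n) (hpos : Function.Injective pos) (hd : L + 2 + M ≤ d)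
    {a b : (Fin k → Bool) → Fin M → Bool}
    (hab : ∀ u v, (∀ x, ¬ (a u x = true ∧ b v x = true)) ↔ u = v) (u : Fin k → Bool)
    (G : Finset (Fin k → Bool)) :
    HasOrthogonalPair (inst d code pos a b u G) ↔ u ∈ G := by
  classical
  unfold HasOrthogonalPair
  simp only [sum_toNat_eq_zero_iff]
  constructor
  · rintro ⟨i, i', h⟩
    change ∀ x : Fin d, ¬ (vecA d code (a u) i x = true ∧ vecB d code pos b G i' x = true) at h
    unfold vecA vecB at h
    by_cases hi : i.1 = 0
    · simp only [hi, if_true] at h
      obtain ⟨-, -, h3, h4⟩ := (lay_orth hd _ _ _ _ _ _ _ _).1 h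
      have h5 : ∃ v ∈ G, pos v = i' := by
        by_contra hcon
        exact h3 ⟨rfl, decide_eq_true hcon⟩
      obtain ⟨v, hv, rfl⟩ := h5
      have h6 : u = v := by
        rw [← hab u v]
        rintro x ⟨hx1, hx2⟩
        exact h4 x ⟨hx1, decide_eq_true ⟨v, rfl, hx2⟩⟩
      rw [h6]; exact hv
    · simp only [hi, if_false] at h
      exact absurd ⟨rfl, rfl⟩ ((lay_orth hd _ _ _ _ _ _ _ _).1 h).1
  · intro hu
    refine ⟨⟨0, hn⟩, pos u, ?_⟩
    change ∀ x : Fin d, ¬ (vecA d code (a u) ⟨0, hn⟩ x = true ∧
      vecB d code pos b G (pos u) x = true)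
    unfold vecA vecB
    simp only [if_true]
    rw [lay_orth hd]
    refine ⟨fun h => absurd h.1 (by simp), fun l h => absurd h.1 (by simp), ?_, ?_⟩
    · rintro ⟨-, h⟩
      exact (of_decide_eq_true h) ⟨u, hu, rfl⟩
    · rintro e ⟨h1, h2⟩
      obtain ⟨v, hv, hv2⟩ := of_decide_eq_true h2
      rw [hpos hv] at hv2
      exact (hab u u).2 rfl _ ⟨h1, hv2⟩

end hard

end Pool.Agent.H2.PF
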