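import Pool.Agent.H2.PF.Net

/-! The last restriction.

STATEMENT. If every coordinate stays alive with probability `1 / (8 a w)`, a decision list of width
`w` has a decision tree of depth `r` except with probability `(1/a)^(r+1)`.

PROOF. `OVT.switch_aux` (Pool/Agent/H58/OVT/Switch.lean) with `N := 8 * a * w`, `α := 1 / a`,
`E := fun _ => True`, `s := r + 1`, `m := L.length`, exactly as in the proof of `OVT.switch` (end of
that file; `Dlt (r+1) f` is by definition `Dt r f`). The numerical condition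
`(1 + 2 * (2 / (N - 1)) / (1 / a)) ^ w ≤ 2` is proved as in `OVT.pow_le_two`: since `a w ≥ 1`,
`N - 1 ≥ 7 a w`, so `2 * (2 / (N - 1)) / (1 / a) = 4 a / (N - 1) ≤ 4 / (7 w)` and
`(1 + 4 / (7 w)) ^ w ≤ exp (4 / 7) ≤ exp (log 2) = 2` (`Real.add_one_le_exp`,
`Real.log_two_gt_d9`: `4 / 7 < 0.6931`). -/

set_option autoImplicit false
set_option maxHeartbeats 4000000

namespace Pool.Agent.H2.PF

open Pool.Agent.H58.OVAC Pool.Agent.H58.OVPR Pool.Agent.H58.OVT

private theorem last_num {w a : ℕ} (hw : 1 ≤ w) (ha : 1 ≤ a) :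
    (1 + 2 * (2 / (((8 * a * w : ℕ) : ℝ) - 1)) / (1 / (a : ℝ))) ^ w ≤ 2 := by
  have hw' : (1 : ℝ) ≤ w := by exact_mod_cast hw
  have ha' : (1 : ℝ) ≤ a := by exact_mod_cast ha
  have haw : (1 : ℝ) ≤ a * w := by nlinarith
  have h1 : (7 : ℝ) * (a * w) ≤ ((8 * a * w : ℕ) : ℝ) - 1 := by
    push_cast
    nlinarith
  have h0 : (0 : ℝ) < ((8 * a * w : ℕ) : ℝ) - 1 := by linarith
  have h2 : 2 * (2 / (((8 * a * w : ℕ) : ℝ) - 1)) / (1 / (a : ℝ)) ≤ 4 / (7 * w) := by
    have h3 : 2 * (2 / (((8 * a * w : ℕ) : ℝ) - 1)) / (1 / (a : ℝ)) =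
        4 * a / (((8 * a * w : ℕ) : ℝ) - 1) := by
      rw [div_div_eq_mul_div, div_one]
      ring
    rw [h3, div_le_div_iff₀ h0 (by positivity)]
    nlinarith
  have h3 : (0 : ℝ) ≤ 2 * (2 / (((8 * a * w : ℕ) : ℝ) - 1)) / (1 / (a : ℝ)) := by positivity
  calc (1 + 2 * (2 / (((8 * a * w : ℕ) : ℝ) - 1)) / (1 / (a : ℝ))) ^ w ≤
        (1 + 4 / (7 * w)) ^ w := by
        apply pow_le_pow_left₀ (by linarith)
        linarith
    _ ≤ (Real.exp (4 / (7 * w))) ^ w := by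
        apply pow_le_pow_left₀ (by positivity)
        have := Real.add_one_le_exp (4 / (7 * (w : ℝ)))
        linarith
    _ = Real.exp (4 / 7) := by
        rw [← Real.exp_nat_mul]
        congr 1
        field_simp
    _ ≤ Real.exp (Real.log 2) := by
        apply Real.exp_le_exp.2
        have := Real.log_two_gt_d9
        linarith
    _ = 2 := Real.exp_log (by norm_num)

theorem last_step {V Y : Type} [Fintype V] [DecidableEq V] {w a r : ℕ} (hw : 1 ≤ w) (ha : 1 ≤ a)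
    (j : Fin (8 * a * w)) (L : List (Item V Y)) (hL : ∀ x ∈ L, x.1.1.card ≤ w) (y0 : Y) :
    pr (fun ω : V → Fin (8 * a * w) × Bool => ¬ Dt r (restr ω j (evalL L y0))) ≤
      (1 / (a : ℝ)) ^ (r + 1) := by
  have ha' : (1 : ℝ) ≤ a := by exact_mod_cast ha
  have haw : 1 ≤ a * w := Nat.mul_pos ha hw
  have hN2 : 2 ≤ 8 * a * w := by
    rw [mul_assoc]
    omega
  have hne : Nonempty (Fin (8 * a * w) × Bool) := ⟨(j, true)⟩
  have h1 := switch_aux (V := V) j hN2 (α := 1 / (a : ℝ)) (by positivity)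
    (by rw [div_le_one (by linarith)]; exact ha')
    (last_num hw ha) L.length L le_rfl hL y0 (r + 1) (fun _ => True) (fun _ _ _ _ _ => trivial)
  have h2 : pr (fun ω : V → Fin (8 * a * w) × Bool => ¬ Dt r (restr ω j (evalL L y0))) ≤
      pr (fun ω : V → Fin (8 * a * w) × Bool =>
        True ∧ ¬ Dlt (r + 1) (restr ω j (evalL L y0))) :=
    pr_mono fun ω h => ⟨trivial, h⟩
  have h3 : pr (fun ω : V → Fin (8 * a * w) × Bool => True) ≤ 1 := pr_le_one _
  calc _ ≤ _ := h2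
    _ ≤ _ := h1
    _ ≤ (1 / (a : ℝ)) ^ (r + 1) * 1 := mul_le_mul_of_nonneg_left h3 (by positivity)
    _ = (1 / (a : ℝ)) ^ (r + 1) := mul_one _

end Pool.Agent.H2.PF
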