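import Pool.Agent.H2.PF.Net

/-! Many coordinates stay alive.

STATEMENT. If every coordinate is alive with probability `p ≥ 1 / N`, independently, and there are
`M ≥ 32 j N` coordinates, then there are `16 j` different alive coordinates, except with probability
`(2 / e)^(16 j) ≤ 1 / 256` (`j ≥ 2`).

PROOF. Let `X θ` be the number of alive `x : Fin M`, `f z := if out z = none then 1/2 else 1`.
`∏ x, f (θ x) = (1/2)^(X θ)` (`Finset.prod_ite`). `av (fun θ => ∏ x, f (θ x)) = (av f)^M`:
`Finset.prod_univ_sum` (with `Fintype.piFinset_univ`, as in `H58/PM/Restr.lean`, `card_bad`) and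
`Fintype.card (Fin M → Ξ) = card Ξ ^ M`. `av f = 1 - p / 2 ≤ 1 - 1/(2N) ≤ exp (-1/(2N))`
(`f z = 1 - (1/2) * (if out z = none then 1 else 0)`, `av_sub`, `av_mul_left`, `av_const`;
`Real.add_one_le_exp`). If there is no injective `sel : Fin (16 j) → Fin M` with alive values, then
`X θ < 16 j` (otherwise take `Finset.orderEmbOfCardLe` of the finset of the alive coordinates, or
`Function.Embedding.nonempty_of_card_le`), so `(1/2)^(16 j) ≤ ∏ x, f (θ x)`. Hence
`pr (bad) ≤ 2^(16 j) * av ∏ ≤ 2^(16 j) * exp (-M/(2N)) ≤ 2^(16 j) * exp (-(16 j)) = (2 * exp (-1))^(16 j)`,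
and `2 * exp (-1) ≤ 3/4` (`Real.exp_one_gt_d9`: `e > 2.7182818283`, so `2 / e < 0.74`), so the bound is
`(3/4)^(16 j) ≤ (3/4)^32 ≤ 1/256`. -/

set_option autoImplicit false
set_option maxHeartbeats 4000000

namespace Pool.Agent.H2.PF

open Pool.Agent.H58.OVAC Pool.Agent.H58.OVPR Pool.Agent.H58.OVT

private theorem av_prod_pow {Z : Type} [Fintype Z] {m : ℕ} (f : Z → ℝ) :
    (av fun a : Fin m → Z => ∏ t, f (a t)) = (av f) ^ m := by
  classical
  unfold av
  have h1 : ∑ a : Fin m → Z, ∏ t, f (a t) = ∏ _t : Fin m, ∑ u, f u := by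
    rw [Finset.prod_univ_sum, Fintype.piFinset_univ]
  rw [h1, Finset.prod_const, Finset.card_univ, Fintype.card_fin, Fintype.card_fun,
    Fintype.card_fin, div_pow]
  push_cast
  rfl

theorem live_prob {Ξ : Type} [Fintype Ξ] [Nonempty Ξ] (out : Ξ → Option Bool) {M j : ℕ} {N : ℝ}
    (hN : 0 < N) (hp : 1 / N ≤ pr (fun z : Ξ => out z = none)) (hM : 32 * j * N ≤ M)
    (hj : 2 ≤ j) :
    pr (fun θ : Fin M → Ξ => ¬ ∃ sel : Fin (16 * j) → Fin M, Function.Injective sel ∧
      ∀ p, out (θ (sel p)) = none) ≤ 1 / 256 := by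
  classical
  obtain ⟨f, hf⟩ : ∃ f : Ξ → ℝ, f = fun z => if out z = none then 1 / 2 else 1 := ⟨_, rfl⟩
  have hprod : ∀ θ : Fin M → Ξ, ∏ x, f (θ x) =
      (1 / 2) ^ (Finset.univ.filter fun x => out (θ x) = none).card := by
    intro θ
    rw [hf]
    simp only
    rw [Finset.prod_ite, Finset.prod_const, Finset.prod_const_one, mul_one]
  have hav : av f = 1 - 1 / 2 * pr (fun z : Ξ => out z = none) := by
    have h1 : av f = av (fun z => (1 : ℝ) - 1 / 2 * (if out z = none then 1 else 0)) := by
      refine av_congr fun z => ?_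
      rw [hf]
      simp only
      split_ifs <;> norm_num
    rw [h1, av_sub, av_const, av_mul_left]
    unfold pr
    congr 2
    refine av_congr fun z => ?_
    by_cases h : out z = none
    · rw [if_pos h, if_pos h]
    · rw [if_neg h, if_neg h]
  have hav0 : 0 ≤ av f := av_nonneg fun z => by
    rw [hf]
    simp only
    split_ifs <;> norm_num
  have hav1 : av f ≤ Real.exp (-(1 / (2 * N))) := by
    have h1 := Real.add_one_le_exp (-(1 / (2 * N)))
    have h2 : 1 / (2 * N) = 1 / 2 * (1 / N) := by field_simp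
    rw [hav]
    refine le_trans ?_ h1
    rw [h2]
    linarith
  have hexp : (av f) ^ M ≤ Real.exp (-((16 * j : ℕ) : ℝ)) := by
    calc (av f) ^ M ≤ (Real.exp (-(1 / (2 * N)))) ^ M := pow_le_pow_left₀ hav0 hav1 M
      _ = Real.exp (M * (-(1 / (2 * N)))) := by rw [← Real.exp_nat_mul]
      _ ≤ Real.exp (-((16 * j : ℕ) : ℝ)) := by
          rw [Real.exp_le_exp]
          have h3 : ((16 * j : ℕ) : ℝ) ≤ M * (1 / (2 * N)) := by
            rw [mul_one_div, le_div_iff₀ (by positivity)]
            push_cast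
            linarith
          linarith
  have hbad : pr (fun θ : Fin M → Ξ => ¬ ∃ sel : Fin (16 * j) → Fin M, Function.Injective sel ∧
      ∀ p, out (θ (sel p)) = none) ≤ av (fun θ : Fin M → Ξ => 2 ^ (16 * j) * ∏ x, f (θ x)) := by
    unfold pr
    refine av_mono fun θ => ?_
    rw [hprod]
    split_ifs with h
    · have hlt : (Finset.univ.filter fun x => out (θ x) = none).card < 16 * j := by
        by_contra hge
        rw [not_lt] at hge
        apply h
        have hc : Fintype.card (Fin (16 * j)) ≤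
            Fintype.card (Finset.univ.filter fun x => out (θ x) = none) := by
          rw [Fintype.card_fin, Fintype.card_coe]
          exact hge
        obtain ⟨e⟩ := Function.Embedding.nonempty_of_card_le hc
        refine ⟨fun p => (e p).1, fun a b hab => e.injective (Subtype.ext hab), fun p => ?_⟩
        exact (Finset.mem_filter.1 (e p).2).2
      have h4 : (1 : ℝ) = 2 ^ (16 * j) * (1 / 2) ^ (16 * j) := by
        rw [← mul_pow]
        norm_num
      have h5 : ((1 : ℝ) / 2) ^ (16 * j) ≤
          (1 / 2) ^ (Finset.univ.filter fun x => out (θ x) = none).card :=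
        pow_le_pow_of_le_one (by norm_num) (by norm_num) hlt.le
      calc (1 : ℝ) = 2 ^ (16 * j) * (1 / 2) ^ (16 * j) := h4
        _ ≤ _ := mul_le_mul_of_nonneg_left h5 (by positivity)
    · positivity
  rw [av_mul_left, av_prod_pow] at hbad
  refine hbad.trans ?_
  have h6 : (2 : ℝ) ^ (16 * j) * (av f) ^ M ≤ (3 / 4) ^ (16 * j) := by
    calc (2 : ℝ) ^ (16 * j) * (av f) ^ M ≤ 2 ^ (16 * j) * Real.exp (-((16 * j : ℕ) : ℝ)) :=
          mul_le_mul_of_nonneg_left hexp (by positivity)
      _ = (2 * Real.exp (-1)) ^ (16 * j) := by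
          rw [mul_pow, ← Real.exp_nat_mul]
          congr 2
          ring
      _ ≤ (3 / 4) ^ (16 * j) := by
          refine pow_le_pow_left₀ (by positivity) ?_ _
          have h7 := Real.exp_one_gt_d9
          rw [Real.exp_neg, ← div_eq_mul_inv, div_le_iff₀ (Real.exp_pos 1)]
          linarith
  refine h6.trans ?_
  calc (3 / 4 : ℝ) ^ (16 * j) ≤ (3 / 4) ^ 32 :=
        pow_le_pow_of_le_one (by norm_num) (by norm_num) (by omega)
    _ ≤ 1 / 256 := by norm_num

end Pool.Agent.H2.PF
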