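import Pool.Agent.H2.PF.Defs

/-! The parameters of the lower bound (Mathlib only).

PROOF of `params`. `L := Nat.clog 2 n`, so `n ≤ 2^L` (`Nat.le_pow_clog`) and `L ≤ ℓ + 1`
(`Nat.pow_pred_clog_lt_self`; as in `lower` of Pool/Agent/Results/MP_0f984e_lc/PolynomialMethod.lean).
`S := (k + 1) * L + 8`, `a := ⌊c / 64⌋₊`, `M := 32 * j * (8 * a * 1 * (16 * S)^T)`. `ℓ ≥ 112` from
`14 ≤ j` and `8 j ≤ ℓ`.
`e1`: `q * s ≤ n * n^k = n^(k+1) ≤ (2^L)^(k+1)`, so `q s (1/2)^S ≤ (1/2)^8 = 1/256`.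
`e2`: `a ≥ c / 128` (`c / 64 - 1 ≤ a`, `c ≥ 2^16`), `c = 2^Lc`, `Lc ≥ 16`, so `a ≥ 2^(Lc - 7)`,
`a^(j+1) ≥ 2^((Lc - 7)(j + 1))`, and `(Lc - 7)(j + 1) ≥ (9/16) Lc (j + 1) > (9/16) 2 (k + 2) ℓ ≥
(k + 2) ℓ ≥ (k + 1) ℓ + 8`. And `q * s ≤ n^(k+1) = 2^((k+1) ℓ)`. So `q s / a^(j+1) ≤ 2^(-8)`.
Dimension: `16 S ≤ 16 ((k + 1)(ℓ + 1) + 8) ≤ 200 (k + 1) ℓ` (`ℓ ≥ 112`), `8 j ≤ ℓ`, `64 a ≤ c`, so
`M = 256 j a (16 S)^T ≤ 32 ℓ a (200 (k+1) ℓ)^T ≤ (c / 2) (200 (k+1) ℓ)^T ℓ`, and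
`L + 2 ≤ ℓ + 3 ≤ (c / 2) ℓ ≤ (c / 2) (200 (k+1) ℓ)^T ℓ` because `200 (k+1) ℓ ≥ 1`
(`one_le_pow₀`). The sum is at most `d` (cast to ℝ, then `exact_mod_cast`). -/

set_option autoImplicit false
set_option maxHeartbeats 4000000

namespace Pool.Agent.H2.PF

theorem params {k T n j d q s : ℕ} {c ℓ Lc : ℝ} (hn : 2 ≤ n) (hℓ : ℓ = Real.logb 2 n)
    (hc : (2 : ℝ) ^ (16 : ℕ) ≤ c) (hLc : Lc = Real.logb 2 c) (hj : 14 ≤ j) (hjℓ : (8 * j : ℝ) ≤ ℓ)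
    (hjL : 2 * ((k : ℝ) + 2) * ℓ < (j + 1) * Lc)
    (hd : c * (200 * ((k : ℝ) + 1) * ℓ) ^ T * ℓ ≤ d) (hq : (q : ℝ) ≤ n) (hs : (s : ℝ) ≤ n ^ k) :
    ∃ S a M L : ℕ, 1 ≤ S ∧ 1 ≤ a ∧ n ≤ 2 ^ L ∧ L + 2 + M ≤ d ∧
      32 * j * (8 * a * 1 * (16 * S) ^ T) ≤ M ∧
      (q * s : ℝ) * (1 / 2) ^ S ≤ 1 / 256 ∧ (q * s : ℝ) * (1 / (a : ℝ)) ^ (j + 1) ≤ 1 / 256 := by
  have hnpos : (0 : ℝ) < n := by exact_mod_cast (by omega : 0 < n)
  have hcpos : (0 : ℝ) < c := lt_of_lt_of_le (by positivity) hc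
  have hc' : (65536 : ℝ) ≤ c := by
    have : ((2 : ℝ) ^ (16 : ℕ)) = 65536 := by norm_num
    rwa [this] at hc
  have hj' : (14 : ℝ) ≤ j := by exact_mod_cast hj
  have hℓ112 : (112 : ℝ) ≤ ℓ := by linarith
  have hk0 : (0 : ℝ) ≤ k := Nat.cast_nonneg _
  have hn2 : (n : ℝ) = (2 : ℝ) ^ ℓ := by
    rw [hℓ, Real.rpow_logb (by norm_num) (by norm_num) hnpos]
  have hc2 : c = (2 : ℝ) ^ Lc := by
    rw [hLc, Real.rpow_logb (by norm_num) (by norm_num) hcpos]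
  have hLc16 : 16 ≤ Lc := by
    rw [hLc, Real.le_logb_iff_rpow_le (by norm_num) hcpos]
    calc (2 : ℝ) ^ (16 : ℝ) = (2 : ℝ) ^ (16 : ℕ) := by norm_cast
      _ ≤ c := hc
  -- the counter
  have hL1 : n ≤ 2 ^ Nat.clog 2 n := Nat.le_pow_clog (by norm_num) n
  have hL2 : ((Nat.clog 2 n : ℕ) : ℝ) ≤ ℓ + 1 := by
    have h1 : 2 ^ (Nat.clog 2 n - 1) < n :=
      Nat.pow_pred_clog_lt_self (by norm_num) (by omega)
    have h2 : (((Nat.clog 2 n - 1 : ℕ) : ℝ)) ≤ ℓ := by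
      rw [hℓ, Real.le_logb_iff_rpow_le (by norm_num) hnpos, Real.rpow_natCast]
      exact_mod_cast h1.le
    have h3 : Nat.clog 2 n ≤ (Nat.clog 2 n - 1) + 1 := by omega
    have h4 : ((Nat.clog 2 n : ℕ) : ℝ) ≤ ((Nat.clog 2 n - 1 : ℕ) : ℝ) + 1 := by exact_mod_cast h3
    linarith
  obtain ⟨L, hL⟩ : ∃ L, L = Nat.clog 2 n := ⟨_, rfl⟩
  rw [← hL] at hL1 hL2
  obtain ⟨S, hS⟩ : ∃ S, S = (k + 1) * L + 8 := ⟨_, rfl⟩
  -- the number of alive coordinates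
  obtain ⟨a, ha⟩ : ∃ a, a = ⌊c / 64⌋₊ := ⟨_, rfl⟩
  have ha1 : (a : ℝ) ≤ c / 64 := by
    rw [ha]
    exact Nat.floor_le (by positivity)
  have ha2 : c / 128 ≤ a := by
    have h1 : c / 64 < (⌊c / 64⌋₊ : ℝ) + 1 := Nat.lt_floor_add_one _
    rw [ha]
    linarith
  have ha3 : (1 : ℝ) ≤ a := by linarith
  have ha4 : (0 : ℝ) < a := by linarith
  have hqs : (q * s : ℝ) ≤ (n : ℝ) ^ (k + 1) := by
    calc (q * s : ℝ) ≤ n * n ^ k := mul_le_mul hq hs (Nat.cast_nonneg _) hnpos.le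
      _ = (n : ℝ) ^ (k + 1) := by ring
  refine ⟨S, a, 32 * j * (8 * a * 1 * (16 * S) ^ T), L, by omega, by exact_mod_cast ha3, hL1, ?_,
    le_rfl, ?_, ?_⟩
  · -- the dimension
    have hS1 : (16 * S : ℝ) ≤ 200 * ((k : ℝ) + 1) * ℓ := by
      have h1 : (S : ℝ) = ((k : ℝ) + 1) * L + 8 := by
        rw [hS]
        push_cast
        ring
      have h2 : ((k : ℝ) + 1) * L ≤ ((k : ℝ) + 1) * (ℓ + 1) :=
        mul_le_mul_of_nonneg_left hL2 (by linarith)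
      have h3 : (k : ℝ) * 112 ≤ k * ℓ := mul_le_mul_of_nonneg_left hℓ112 hk0
      rw [h1]
      nlinarith
    have hQ1 : (1 : ℝ) ≤ (200 * ((k : ℝ) + 1) * ℓ) ^ T := by
      refine one_le_pow₀ ?_
      have h3 : 0 ≤ (k : ℝ) * ℓ := by positivity
      nlinarith
    have hQ2 : (16 * S : ℝ) ^ T ≤ (200 * ((k : ℝ) + 1) * ℓ) ^ T :=
      pow_le_pow_left₀ (by positivity) hS1 T
    obtain ⟨Q, hQ⟩ : ∃ Q, Q = (200 * ((k : ℝ) + 1) * ℓ) ^ T := ⟨_, rfl⟩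
    rw [← hQ] at hQ1 hQ2 hd
    have hMle : (32 * j * (8 * a * 1 * (16 * S) ^ T) : ℝ) ≤ c / 2 * ℓ * Q := by
      calc (32 * j * (8 * a * 1 * (16 * S) ^ T) : ℝ)
          = 8 * j * (32 * a) * (16 * S) ^ T := by ring
        _ ≤ ℓ * (c / 2) * Q := by
            refine mul_le_mul (mul_le_mul hjℓ (by linarith) (by positivity) (by linarith)) hQ2
              (by positivity) (by positivity)
        _ = c / 2 * ℓ * Q := by ring
    have hLle : (L : ℝ) + 2 ≤ c / 2 * ℓ * Q := by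
      calc (L : ℝ) + 2 ≤ 2 * ℓ * 1 := by linarith
        _ ≤ c / 2 * ℓ * Q :=
            mul_le_mul (mul_le_mul_of_nonneg_right (by linarith) (by linarith)) hQ1
              (by norm_num) (by positivity)
    have hfin : ((L + 2 + 32 * j * (8 * a * 1 * (16 * S) ^ T) : ℕ) : ℝ) ≤ d := by
      push_cast
      have h5 : c / 2 * ℓ * Q + c / 2 * ℓ * Q = c * Q * ℓ := by ring
      linarith
    exact_mod_cast hfin
  · -- the first error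
    have h1 : (n : ℝ) ^ (k + 1) ≤ 2 ^ ((k + 1) * L) := by
      have h2 : (n : ℝ) ≤ 2 ^ L := by exact_mod_cast hL1
      calc (n : ℝ) ^ (k + 1) ≤ (2 ^ L) ^ (k + 1) := pow_le_pow_left₀ hnpos.le h2 _
        _ = 2 ^ ((k + 1) * L) := by rw [← pow_mul, Nat.mul_comm]
    have h2 : (0 : ℝ) < 2 ^ ((k + 1) * L) := by positivity
    calc (q * s : ℝ) * (1 / 2) ^ S ≤ 2 ^ ((k + 1) * L) * (1 / 2) ^ S :=
          mul_le_mul_of_nonneg_right (hqs.trans h1) (by positivity)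
      _ = 1 / 256 := by
          rw [hS, pow_add, ← mul_assoc, ← mul_pow]
          norm_num
  · -- the second error
    have h1 : (n : ℝ) ^ (k + 1) = (2 : ℝ) ^ (ℓ * ((k : ℝ) + 1)) := by
      rw [hn2, ← Real.rpow_natCast, ← Real.rpow_mul (by norm_num)]
      push_cast
      rfl
    have h2 : (2 : ℝ) ^ ((Lc - 7) * ((j : ℝ) + 1)) ≤ (a : ℝ) ^ (j + 1) := by
      have h3 : (2 : ℝ) ^ (Lc - 7) ≤ a := by
        rw [Real.rpow_sub (by norm_num), ← hc2]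
        calc c / (2 : ℝ) ^ (7 : ℝ) = c / 128 := by
              congr 1
              norm_num
          _ ≤ a := ha2
      calc (2 : ℝ) ^ ((Lc - 7) * ((j : ℝ) + 1)) = ((2 : ℝ) ^ (Lc - 7)) ^ (j + 1) := by
            rw [← Real.rpow_natCast, ← Real.rpow_mul (by norm_num)]
            push_cast
            rfl
        _ ≤ (a : ℝ) ^ (j + 1) := pow_le_pow_left₀ (by positivity) h3 _
    have h4 : ℓ * ((k : ℝ) + 1) + 8 ≤ (Lc - 7) * ((j : ℝ) + 1) := by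
      have h5 : 0 ≤ (7 / 16 * Lc - 7) * ((j : ℝ) + 1) := by
        refine mul_nonneg (by linarith) (by linarith)
      have h6 : 0 ≤ ((k : ℝ) + 2) * ℓ := by positivity
      nlinarith
    have h7 : (n : ℝ) ^ (k + 1) * 256 ≤ (a : ℝ) ^ (j + 1) := by
      calc (n : ℝ) ^ (k + 1) * 256 = (2 : ℝ) ^ (ℓ * ((k : ℝ) + 1)) * (2 : ℝ) ^ (8 : ℝ) := by
            rw [h1]
            congr 1
            norm_num
        _ = (2 : ℝ) ^ (ℓ * ((k : ℝ) + 1) + 8) := by rw [← Real.rpow_add (by norm_num)]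
        _ ≤ (2 : ℝ) ^ ((Lc - 7) * ((j : ℝ) + 1)) :=
            Real.rpow_le_rpow_of_exponent_le (by norm_num) h4
        _ ≤ (a : ℝ) ^ (j + 1) := h2
    have h8 : (0 : ℝ) < (a : ℝ) ^ (j + 1) := by positivity
    rw [one_div_pow, mul_one_div, div_le_div_iff₀ h8 (by norm_num)]
    linarith [mul_le_mul_of_nonneg_right hqs (show (0 : ℝ) ≤ 256 by norm_num)]

theorem sq_le_two_pow {q j n : ℕ} {ℓ Lc : ℝ} (hℓ : ℓ = Real.logb 2 n) (hn : 2 ≤ n)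
    (hq : (q : ℝ) ≤ n ^ (1 / Lc)) (hLc : 0 < Lc) (hj : 2 ≤ j) (hjL : 3 * ℓ < (j + 1) * Lc) :
    q ^ 2 ≤ 2 ^ j := by
  have hnpos : (0 : ℝ) < n := by exact_mod_cast (by omega : 0 < n)
  have hn2 : (n : ℝ) = (2 : ℝ) ^ ℓ := by
    rw [hℓ, Real.rpow_logb (by norm_num) (by norm_num) hnpos]
  have h1 : (q : ℝ) ^ 2 ≤ 2 ^ j := by
    calc (q : ℝ) ^ 2 ≤ ((n : ℝ) ^ (1 / Lc)) ^ 2 := pow_le_pow_left₀ (Nat.cast_nonneg _) hq 2
      _ = (2 : ℝ) ^ (2 * ℓ / Lc) := by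
          rw [hn2, ← Real.rpow_mul (by norm_num), ← Real.rpow_natCast, ← Real.rpow_mul
            (by norm_num)]
          congr 1
          push_cast
          ring
      _ ≤ (2 : ℝ) ^ (j : ℝ) := by
          apply Real.rpow_le_rpow_of_exponent_le (by norm_num)
          rw [div_le_iff₀ hLc]
          have h2 : (2 : ℝ) ≤ j := by exact_mod_cast hj
          nlinarith
      _ = 2 ^ j := Real.rpow_natCast _ _
  exact_mod_cast h1

theorem exists_group {n pA pB : ℕ} (P : Partition n pA pB) (hn : 0 < n) :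
    ∃ J0 : Fin pB, n ≤ pB * (Finset.univ.filter fun i => P.groupB i = J0).card := by
  by_contra hcon
  push Not at hcon
  have h1 : ∑ J : Fin pB, (Finset.univ.filter fun i => P.groupB i = J).card = n := by
    have h2 := Finset.card_eq_sum_card_fiberwise (f := P.groupB) (s := Finset.univ)
      (t := Finset.univ) (fun _ _ => Finset.mem_coe.2 (Finset.mem_univ _))
    rw [Finset.card_univ, Fintype.card_fin] at h2
    exact h2.symm
  have hpB : 0 < pB := lt_of_le_of_lt (Nat.zero_le _) (P.groupB ⟨0, hn⟩).2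
  have h3 : ∑ J : Fin pB, pB * (Finset.univ.filter fun i => P.groupB i = J).card < pB * n := by
    calc ∑ J : Fin pB, pB * (Finset.univ.filter fun i => P.groupB i = J).card
        < ∑ _J : Fin pB, n := by
          apply Finset.sum_lt_sum_of_nonempty
          · exact ⟨⟨0, hpB⟩, Finset.mem_univ _⟩
          · intro J _
            exact hcon J
      _ = pB * n := by rw [Finset.sum_const, Finset.card_univ, Fintype.card_fin, smul_eq_mul]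
  rw [← Finset.mul_sum, h1] at h3
  exact lt_irrefl _ h3

/-- The two cases with few groups and with short keys. -/
theorem few_groups {n pA pB s : ℕ} {x : ℝ} (hs : n ≤ pB * s) (hpp : pB ≤ pA)
    (hx : (s : ℝ) ≤ x) : (n : ℝ) ^ 2 ≤ pA * pB * x ^ 2 := by
  have h1 : (n : ℝ) ≤ pB * s := by exact_mod_cast hs
  have h2 : (pB : ℝ) ≤ pA := by exact_mod_cast hpp
  have h3 : (n : ℝ) ≤ pB * x := h1.trans (mul_le_mul_of_nonneg_left hx (Nat.cast_nonneg _))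
  have h4 : (0 : ℝ) ≤ n := Nat.cast_nonneg _
  calc (n : ℝ) ^ 2 ≤ (pB * x) ^ 2 := pow_le_pow_left₀ h4 h3 2
    _ = pB * pB * x ^ 2 := by ring
    _ ≤ pA * pB * x ^ 2 := by
        have : (0 : ℝ) ≤ pB := Nat.cast_nonneg _
        gcongr

end Pool.Agent.H2.PF
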