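import Pool.Agent.H2.PF.Main
import Pool.Agent.H2.PF.Num

/-! The lower bound. -/

set_option autoImplicit false
set_option maxHeartbeats 4000000

namespace Pool.Agent.H2.PF

theorem lower : ∃ C κ : ℝ, 0 < C ∧ 0 < κ ∧ ∀ (k T : ℕ) (c : ℝ), 2 ≤ c →
    ∀ (n d s q w pA pB : ℕ) (P : Partition n pA pB) (F : Type) [Field F],
      2 ≤ n → c * (C * ((k : ℝ) + 1) * Real.logb 2 n) ^ T * Real.logb 2 n ≤ d →
      (s : ℝ) ≤ (n : ℝ) ^ k → (q : ℝ) ≤ (n : ℝ) ^ (1 / Real.logb 2 c) →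
      (w : ℝ) ≤ (n : ℝ) ^ (1 / Real.logb 2 c) → pB ≤ pA →
      ∀ μ : PMF (Algorithm F n d (T + 1) s q w pA pB P),
        (∀ x : Input n d, IsValid x → 2 / 3 ≤ μ.toOuterMeasure {C | C.CorrectOn x}) →
        κ * (n : ℝ) ^ (2 - C * ((k : ℝ) + 1) / Real.logb 2 c) ≤ (pA : ℝ) * pB := by
  classical
  refine ⟨200, (1 / 2) ^ 224, by norm_num, by positivity, ?_⟩
  intro k T c hc n d s q w pA pB P F _ hn hd hs hq hw hpp μ hμ
  obtain ⟨Lc, hLc⟩ : ∃ Lc, Lc = Real.logb 2 c := ⟨_, rfl⟩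
  obtain ⟨ℓ, hℓ⟩ : ∃ ℓ, ℓ = Real.logb 2 n := ⟨_, rfl⟩
  rw [← hLc] at hq hw ⊢
  rw [← hℓ] at hd
  have hcpos : 0 < c := by linarith
  have hnpos : (0 : ℝ) < n := by exact_mod_cast (by omega : 0 < n)
  have hn1 : (1 : ℝ) ≤ n := by exact_mod_cast (by omega : 1 ≤ n)
  have hn0 : 0 < n := by omega
  have hk0 : (0 : ℝ) ≤ k := Nat.cast_nonneg _
  have hLc1 : 1 ≤ Lc := by
    rw [hLc, Real.le_logb_iff_rpow_le (by norm_num) hcpos]
    simpa using hc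
  have hLcpos : 0 < Lc := by linarith
  have hℓ1 : 1 ≤ ℓ := by
    rw [hℓ, Real.le_logb_iff_rpow_le (by norm_num) hnpos]
    simpa using (by exact_mod_cast hn : (2 : ℝ) ≤ n)
  have hn2 : (n : ℝ) = (2 : ℝ) ^ ℓ := by
    rw [hℓ, Real.rpow_logb (by norm_num) (by norm_num) hnpos]
  have hpB : (1 : ℝ) ≤ pB := by
    have : 0 < pB := lt_of_le_of_lt (Nat.zero_le _) (P.groupB ⟨0, hn0⟩).2
    exact_mod_cast this
  have hpA : (1 : ℝ) ≤ pA := hpB.trans (by exact_mod_cast hpp)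
  have hpp1 : (1 : ℝ) ≤ (pA : ℝ) * pB := by nlinarith
  have hκ1 : ((1 : ℝ) / 2) ^ 224 ≤ 1 := pow_le_one₀ (by norm_num) (by norm_num)
  have hexp : (n : ℝ) ^ (2 - 200 * ((k : ℝ) + 1) / Lc) ≤ (n : ℝ) ^ 2 := by
    have h1 : (n : ℝ) ^ (2 : ℝ) = (n : ℝ) ^ (2 : ℕ) := by norm_cast
    rw [← h1]
    apply Real.rpow_le_rpow_of_exponent_le hn1
    have : 0 ≤ 200 * ((k : ℝ) + 1) / Lc := by positivity
    linarith
  -- the trivial case
  by_cases hLc16 : Lc < 16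
  · have h1 : (n : ℝ) ^ (2 - 200 * ((k : ℝ) + 1) / Lc) ≤ 1 := by
      apply Real.rpow_le_one_of_one_le_of_nonpos hn1
      have h2 : 2 ≤ 200 * ((k : ℝ) + 1) / Lc := by
        rw [le_div_iff₀ hLcpos]
        nlinarith
      linarith
    have h2 : ((1 : ℝ) / 2) ^ 224 * (n : ℝ) ^ (2 - 200 * ((k : ℝ) + 1) / Lc) ≤ 1 := by
      calc ((1 : ℝ) / 2) ^ 224 * (n : ℝ) ^ (2 - 200 * ((k : ℝ) + 1) / Lc) ≤ 1 * 1 := by
            gcongr
        _ = 1 := by norm_num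
    linarith
  push Not at hLc16
  have hc16 : (2 : ℝ) ^ (16 : ℕ) ≤ c := by
    have h1 := (Real.le_logb_iff_rpow_le (b := 2) (by norm_num) hcpos).1 (hLc ▸ hLc16)
    calc (2 : ℝ) ^ (16 : ℕ) = (2 : ℝ) ^ (16 : ℝ) := by norm_cast
      _ ≤ c := h1
  obtain ⟨J0, hJ0⟩ := exists_group P hn0
  obtain ⟨z, hz⟩ : ∃ z, z = (Finset.univ.filter fun i => P.groupB i = J0).card := ⟨_, rfl⟩
  rw [← hz] at hJ0
  have hz0 : z ≠ 0 := by
    intro h
    rw [h] at hJ0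
    omega
  have hzn : z ≤ n := by
    rw [hz]
    refine (Finset.card_le_univ _).trans ?_
    simp
  obtain ⟨j, hj⟩ : ∃ j, j = Nat.log 2 z / 8 := ⟨_, rfl⟩
  have hj1 : 2 ^ (8 * j) ≤ z := by
    calc 2 ^ (8 * j) ≤ 2 ^ Nat.log 2 z := Nat.pow_le_pow_right (by norm_num) (by omega)
      _ ≤ z := Nat.pow_log_le_self 2 hz0
  have hj2 : z ≤ 2 ^ (8 * j + 8) := by
    calc z ≤ 2 ^ (Nat.log 2 z + 1) := (Nat.lt_pow_succ_log_self (by norm_num) z).le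
      _ ≤ 2 ^ (8 * j + 8) := Nat.pow_le_pow_right (by norm_num) (by omega)
  -- short keys
  by_cases hj14 : j < 14
  · have h1 : (z : ℝ) ≤ 2 ^ 112 := by
      have h2 : z ≤ 2 ^ 112 := hj2.trans (Nat.pow_le_pow_right (by norm_num) (by omega))
      exact_mod_cast h2
    have h2 := few_groups hJ0 hpp h1
    have h3 : ((1 : ℝ) / 2) ^ 224 * (n : ℝ) ^ 2 ≤ pA * pB := by
      have h4 : ((1 : ℝ) / 2) ^ 224 * ((2 : ℝ) ^ 112) ^ 2 = 1 := by norm_num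
      calc ((1 : ℝ) / 2) ^ 224 * (n : ℝ) ^ 2
          ≤ ((1 : ℝ) / 2) ^ 224 * (pA * pB * (2 ^ 112) ^ 2) := by gcongr
        _ = pA * pB * (((1 : ℝ) / 2) ^ 224 * ((2 : ℝ) ^ 112) ^ 2) := by ring
        _ = pA * pB := by rw [h4, mul_one]
    have h5 : ((1 : ℝ) / 2) ^ 224 * (n : ℝ) ^ (2 - 200 * ((k : ℝ) + 1) / Lc) ≤
        ((1 : ℝ) / 2) ^ 224 * (n : ℝ) ^ 2 := by gcongr
    linarith
  push Not at hj14
  -- small groups
  by_cases hjL : ((j : ℝ) + 1) * Lc ≤ 2 * ((k : ℝ) + 2) * ℓ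
  · have h1 : (z : ℝ) ≤ (n : ℝ) ^ (16 * ((k : ℝ) + 2) / Lc) := by
      have h2 : (z : ℝ) ≤ (2 : ℝ) ^ ((8 * j + 8 : ℕ) : ℝ) := by
        rw [Real.rpow_natCast]
        exact_mod_cast hj2
      refine h2.trans ?_
      rw [hn2, ← Real.rpow_mul (by norm_num)]
      apply Real.rpow_le_rpow_of_exponent_le (by norm_num)
      rw [← mul_div_assoc, le_div_iff₀ hLcpos]
      push_cast
      linarith
    have h2 := few_groups hJ0 hpp h1
    have h3 : (n : ℝ) ^ (2 - 200 * ((k : ℝ) + 1) / Lc) ≤ pA * pB := by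
      have h4 : ((n : ℝ) ^ (16 * ((k : ℝ) + 2) / Lc)) ^ 2 =
          (n : ℝ) ^ (32 * ((k : ℝ) + 2) / Lc) := by
        rw [← Real.rpow_natCast, ← Real.rpow_mul hnpos.le]
        congr 1
        push_cast
        ring
      rw [h4] at h2
      have h5 : (0 : ℝ) < (n : ℝ) ^ (32 * ((k : ℝ) + 2) / Lc) := Real.rpow_pos_of_pos hnpos _
      have h7 : (n : ℝ) ^ (2 - 32 * ((k : ℝ) + 2) / Lc) ≤ pA * pB := by
        rw [Real.rpow_sub hnpos, div_le_iff₀ h5]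
        have h6 : (n : ℝ) ^ (2 : ℝ) = (n : ℝ) ^ (2 : ℕ) := by norm_cast
        rw [h6]
        exact h2
      refine le_trans ?_ h7
      apply Real.rpow_le_rpow_of_exponent_le hn1
      have h8 : 32 * ((k : ℝ) + 2) / Lc ≤ 200 * ((k : ℝ) + 1) / Lc := by
        apply div_le_div_of_nonneg_right _ hLcpos.le
        linarith
      linarith
    have h6 : ((1 : ℝ) / 2) ^ 224 * (n : ℝ) ^ (2 - 200 * ((k : ℝ) + 1) / Lc) ≤
        (n : ℝ) ^ (2 - 200 * ((k : ℝ) + 1) / Lc) := by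
      have h7 : (0 : ℝ) ≤ (n : ℝ) ^ (2 - 200 * ((k : ℝ) + 1) / Lc) :=
        Real.rpow_nonneg hnpos.le _
      calc ((1 : ℝ) / 2) ^ 224 * (n : ℝ) ^ (2 - 200 * ((k : ℝ) + 1) / Lc)
          ≤ 1 * (n : ℝ) ^ (2 - 200 * ((k : ℝ) + 1) / Lc) := by gcongr
        _ = _ := one_mul _
    linarith
  push Not at hjL
  -- the main case
  exfalso
  have hjℓ : (8 * j : ℝ) ≤ ℓ := by
    have h1 : ((2 : ℝ) ^ (8 * j) : ℝ) ≤ n := by exact_mod_cast hj1.trans hzn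
    rw [hℓ, Real.le_logb_iff_rpow_le (by norm_num) hnpos]
    have h2 : (2 : ℝ) ^ ((8 : ℝ) * j) = (2 : ℝ) ^ (8 * j) := by
      rw [← Real.rpow_natCast]
      congr 1
      push_cast
      ring
    rw [h2]
    exact h1
  have hqn : (q : ℝ) ≤ n := by
    refine hq.trans ?_
    calc (n : ℝ) ^ (1 / Lc) ≤ (n : ℝ) ^ (1 : ℝ) := by
          apply Real.rpow_le_rpow_of_exponent_le hn1
          rw [div_le_one hLcpos]
          exact hLc1
      _ = n := Real.rpow_one _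
  have hjL3 : 3 * ℓ < (j + 1) * Lc := by
    refine lt_of_le_of_lt ?_ hjL
    nlinarith
  obtain ⟨S, a, M, L, hS, ha, hnL, hdM, hM, e1, e2⟩ :=
    params (k := k) (T := T) hn hℓ hc16 hLc hj14 hjℓ hjL hd hqn hs
  exact contra hn0 hnL hdM hS ha hM hj14 (sq_le_two_pow hℓ hn hq hLcpos (by omega) hjL3)
    (sq_le_two_pow hℓ hn hw hLcpos (by omega) hjL3) e1 e2 J0 (hz ▸ hj1) μ hμ

end Pool.Agent.H2.PF
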