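import Pool.Agent.H2.PF.Stp

/-! The random restriction for nets of constant depth.

STATEMENT. There is a finite probability space `Ξ` and `out : Ξ → Option Bool` with
`pr (out = none) = 1 / (8 a w (16 S)^T)` such that for independent `θ x ∈ Ξ` (`x ∈ V`) all the gates
of a net with at most `T + 1` unknown layers have decision trees of depth `j` after the restriction,
with the stated probability.

PROOF. Induction on `T`, for all `w ≤ S`.
`T = 0`: `Ξ := Fin (8 * a * w) × Bool`, `out z := if z.1 = 0 then none else some z.2`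
(zero = `⟨0, _⟩`, positive because `a, w ≥ 1`). `pr (out = none) = 1 / (8 a w)` is
`OVT.pr_alive` . `fun σ => N.val g (fill out θ σ)` is `restr θ ⟨0, _⟩ (N.val g)`: pointwise
`(if (θ x).1 = 0 then none else some (θ x).2).getD (σ x) = if (θ x).1 = 0 then σ x else (θ x).2`.
So `fin_step` gives the bound `card G * (1 / a) ^ (j + 1)`, and the first summand is nonnegative.
`T + 1`: let `Ξ', out'` be the space for `T` and `w := S`. `Ξ := (Fin (16 * w) × Bool) × Ξ'`,
`out z := if z.1.1 = ⟨0, _⟩ then out' z.2 else some z.1.2`.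
`pr (out = none) = pr (z.1.1 = 0) * pr (out' = none)`: `out z = none ↔ z.1.1 = 0 ∧ out' z.2 = none`;
`pr_prod` and `av_mul_right` (split the indicator of the AND into a product of indicators), and
`pr (fun z : Fin (16 w) × Bool => z.1 = 0) = 1 / (16 w)` from `OVT.pr_alive` (`(if z.1 = j then none
else some z.2) = none ↔ z.1 = j`). Arithmetic: `1/(16 w) * 1/(8 a S (16 S)^T) =
1/(8 a w (16 S)^(T+1))`, `field_simp; ring`.
For the net: `pr_equiv` with `Equiv.arrowProdEquivProdArrow _ _ _` transports `V → (A × Ξ')` to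
`(V → A) × (V → Ξ')`, and `pr_prod` makes it `av fun ω => pr fun θ' => ...`. For `θ x = (ω x, θ' x)`,
`fill out θ σ x = (if (ω x).1 = 0 then (fill out' θ' σ) x else (ω x).2)`, so
`N.val g (fill out θ σ) = (restr ω 0 (N.val g)) (fill out' θ' σ)`
`= (N.comp φ).val g (fill out' θ' σ)` with `φ σ := fun x => if (ω x).1 = 0 then σ x else (ω x).2`
(definition of `OVAC.restr`). Let `E ω := ∃ g, N.layer g = t ∧ ¬ Dt S (restr ω 0 (N.val g))`; by
`mid_step` `pr E ≤ card {layer = t} * (1/2)^S`. If `¬ E ω`, the net `N.comp φ` satisfies the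
hypotheses of the induction for `t + 1` and `w := S`: inputs `Dt 1` by `Dt.restr`; gates of layer
`< t` are `Dt w` (by `Dt.restr`), so `Dt S` (`Dt.mono`, `w ≤ S`); gates of layer `t` are `Dt S` by
`¬ E ω`. So `pr_θ' ≤ B := card {t + 1 ≤ layer} * (1/2)^S + card G * (1/a)^(j+1)`. Hence for every `ω`
`pr_θ' (...) ≤ (if E ω then 1 else 0) + B` (`pr_le_one`), and `av_mono`, `av_add`, `av_const` give
`pr E + B`. Finally `card {layer = t} + card {t + 1 ≤ layer} = card {t ≤ layer}` (disjoint union;
`≤` is enough, `Finset.card_union_of_disjoint` ). -/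

set_option autoImplicit false
set_option maxHeartbeats 4000000

namespace Pool.Agent.H2.PF

open Pool.Agent.H58.OVAC Pool.Agent.H58.OVPR Pool.Agent.H58.OVT

private theorem card_layers {G : Type} [Fintype G] (l : G → ℕ) (t : ℕ) :
    (Finset.univ.filter fun g : G => l g = t).card +
      (Finset.univ.filter fun g : G => t + 1 ≤ l g).card =
      (Finset.univ.filter fun g : G => t ≤ l g).card := by
  classical
  rw [← Finset.card_union_of_disjoint]
  · congr 1
    ext g
    simp only [Finset.mem_union, Finset.mem_filter, Finset.mem_univ, true_and]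
    omega
  · rw [Finset.disjoint_left]
    intro g hg hg'
    simp only [Finset.mem_filter, Finset.mem_univ, true_and] at hg hg'
    omega

private theorem pr_out {A Ξ : Type} [Fintype A] [Fintype Ξ] (o : A → Option Bool)
    (out : Ξ → Option Bool) :
    pr (fun z : A × Ξ => (if o z.1 = none then out z.2 else o z.1) = none) =
      pr (fun z => o z = none) * pr (fun z => out z = none) := by
  classical
  rw [pr_prod fun (x : A) (y : Ξ) => (if o x = none then out y else o x) = none]
  have h2 : ∀ x : A, pr (fun y : Ξ => (if o x = none then out y else o x) = none) =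
      (if o x = none then (1 : ℝ) else 0) * pr (fun z => out z = none) := by
    intro x
    by_cases h : o x = none
    · simp [h]
    · rw [pr_eq_zero]
      · simp [h]
      · intro y
        simp [h]
  rw [av_congr h2, av_mul_right]
  unfold pr
  congr 1
  exact av_congr fun x => by congr

open Classical in
theorem exists_space (S a r : ℕ) (hS : 1 ≤ S) (ha : 1 ≤ a) (T : ℕ) :
    ∀ w : ℕ, 1 ≤ w → w ≤ S → ∃ (Ξ : Type) (_ : Fintype Ξ) (_ : Nonempty Ξ)
      (out : Ξ → Option Bool),
      pr (fun z => out z = none) = 1 / (8 * a * w * (16 * S) ^ T) ∧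
      ∀ (V ι G : Type) [Fintype V] [DecidableEq V] [Fintype G] (N : Net V ι G) (t : ℕ),
        (∀ i, Dt 1 (N.inp i)) → (∀ g, N.layer g < t → Dt w (N.val g)) →
        (∀ g, N.layer g ≤ t + T) →
        pr (fun θ : V → Ξ => ∃ g, ¬ Dt r (fun σ => N.val g (fill out θ σ))) ≤
          ((Finset.univ.filter fun g : G => t ≤ N.layer g).card : ℝ) * (1 / 2) ^ S +
            (Fintype.card G : ℝ) * (1 / (a : ℝ)) ^ (r + 1) := by
  induction T with
  | zero =>
    intro w hw hwS
    have hN : 0 < 8 * a * w := by positivity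
    refine ⟨Fin (8 * a * w) × Bool, inferInstance, ⟨(⟨0, hN⟩, true)⟩,
      fun z => if z.1 = ⟨0, hN⟩ then none else some z.2, ?_, ?_⟩
    · have h := H58.OVT.pr_alive (⟨0, hN⟩ : Fin (8 * a * w))
      rw [pow_zero, mul_one]
      push_cast at h
      rw [← h]
    · intro V ι G _ _ _ N t hin hlow hlay
      have h1 := fin_step (r := r) N hw ha ⟨0, hN⟩ hin hlow hlay
      have h3 : pr (fun θ : V → Fin (8 * a * w) × Bool => ∃ g, ¬ Dt r (fun σ => N.val g
          (fill (fun z : Fin (8 * a * w) × Bool => if z.1 = ⟨0, hN⟩ then none else some z.2)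
            θ σ))) =
          pr (fun ω : V → Fin (8 * a * w) × Bool => ∃ g, ¬ Dt r (restr ω ⟨0, hN⟩ (N.val g))) := by
        refine pr_congr fun θ => exists_congr fun g => not_congr ?_
        have h2 : (fun σ => N.val g
          (fill (fun z : Fin (8 * a * w) × Bool => if z.1 = ⟨0, hN⟩ then none else some z.2)
            θ σ)) = restr θ ⟨0, hN⟩ (N.val g) := by
          funext σ
          unfold restr fill
          congr 1
          funext x
          by_cases hx : (θ x).1 = ⟨0, hN⟩ <;> simp [hx]
        rw [h2]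
      refine le_trans (le_of_eq h3) (h1.trans (le_add_of_nonneg_left ?_))
      positivity
  | succ T ih =>
    intro w hw hwS
    have hN : 0 < 16 * w := by positivity
    obtain ⟨Ξ', _, _, out', hp, hT⟩ := ih S hS le_rfl
    refine ⟨(Fin (16 * w) × Bool) × Ξ', inferInstance, ⟨((⟨0, hN⟩, true), Classical.arbitrary Ξ')⟩,
      fun z => if z.1.1 = ⟨0, hN⟩ then out' z.2 else some z.1.2, ?_, ?_⟩
    · have h1 := pr_out (fun z : Fin (16 * w) × Bool =>
        if z.1 = ⟨0, hN⟩ then none else some z.2) out'
      rw [H58.OVT.pr_alive, hp] at h1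
      have h2 : pr (fun z : (Fin (16 * w) × Bool) × Ξ' =>
          (if z.1.1 = ⟨0, hN⟩ then out' z.2 else some z.1.2) = none) =
          1 / ((16 * w : ℕ) : ℝ) * (1 / (8 * a * S * (16 * S) ^ T)) := by
        rw [← h1]
        refine pr_congr fun z => ?_
        by_cases hz : z.1.1 = ⟨0, hN⟩ <;> simp [hz]
      rw [h2, one_div_mul_one_div]
      push_cast
      congr 1
      ring
    · intro V ι G _ _ _ N t hin hlow hlay
      let φ : (V → Fin (16 * w) × Bool) → (V → Bool) → (V → Bool) :=
        fun ω σ x => if (ω x).1 = ⟨0, hN⟩ then σ x else (ω x).2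
      have hE := mid_step (S := S) (t := t) N hw ⟨0, hN⟩ hin hlow
      obtain ⟨B, hB⟩ : ∃ B : ℝ,
          B = ((Finset.univ.filter fun g : G => t + 1 ≤ N.layer g).card : ℝ) * (1 / 2) ^ S +
            (Fintype.card G : ℝ) * (1 / (a : ℝ)) ^ (r + 1) := ⟨_, rfl⟩
      have hB0 : 0 ≤ B := by
        rw [hB]
        positivity
      have key : ∀ ω : V → Fin (16 * w) × Bool,
          pr (fun θ' : V → Ξ' => ∃ g, ¬ Dt r (fun σ => N.val g (φ ω (fill out' θ' σ)))) ≤
          (if (∃ g, N.layer g = t ∧ ¬ Dt S (restr ω ⟨0, hN⟩ (N.val g))) then 1 else 0) + B := by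
        intro ω
        by_cases h : ∃ g, N.layer g = t ∧ ¬ Dt S (restr ω ⟨0, hN⟩ (N.val g))
        · rw [if_pos h]
          have := pr_le_one (fun θ' : V → Ξ' =>
            ∃ g, ¬ Dt r (fun σ => N.val g (φ ω (fill out' θ' σ))))
          linarith
        · rw [if_neg h, zero_add, hB]
          refine hT V ι G (N.comp (φ ω)) (t + 1) (fun i => (hin i).restr ω ⟨0, hN⟩)
            (fun g hg => ?_) (fun g => ?_)
          · have hg' : N.layer g < t + 1 := hg
            rcases Nat.lt_succ_iff_lt_or_eq.1 hg' with hlt | heq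
            · exact ((hlow g hlt).restr ω ⟨0, hN⟩).mono hwS
            · by_contra hcon
              exact h ⟨g, heq, hcon⟩
          · have := hlay g
            show N.layer g ≤ t + 1 + T
            omega
      let e := Equiv.arrowProdEquivProdArrow V (fun _ => Fin (16 * w) × Bool) (fun _ => Ξ')
      have h1 : pr (fun θ : V → (Fin (16 * w) × Bool) × Ξ' => ∃ g, ¬ Dt r (fun σ => N.val g
          (fill (fun z : (Fin (16 * w) × Bool) × Ξ' =>
            if z.1.1 = ⟨0, hN⟩ then out' z.2 else some z.1.2) θ σ))) =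
          av fun ω : V → Fin (16 * w) × Bool =>
            pr (fun θ' : V → Ξ' => ∃ g, ¬ Dt r (fun σ => N.val g (φ ω (fill out' θ' σ)))) := by
        rw [← pr_prod fun (ω : V → Fin (16 * w) × Bool) (θ' : V → Ξ') =>
          ∃ g, ¬ Dt r (fun σ => N.val g (φ ω (fill out' θ' σ))),
          ← pr_equiv e]
        refine pr_congr fun θ => exists_congr fun g => not_congr ?_
        have h2 : (fun σ => N.val g (fill (fun z : (Fin (16 * w) × Bool) × Ξ' =>
            if z.1.1 = ⟨0, hN⟩ then out' z.2 else some z.1.2) θ σ)) =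
            fun σ => N.val g (φ (e θ).1 (fill out' (e θ).2 σ)) := by
          funext σ
          congr 1
          funext x
          show (if (θ x).1.1 = ⟨0, hN⟩ then out' (θ x).2 else some (θ x).1.2).getD (σ x) =
            if (θ x).1.1 = ⟨0, hN⟩ then (out' (θ x).2).getD (σ x) else (θ x).1.2
          by_cases hx : (θ x).1.1 = ⟨0, hN⟩ <;> simp [hx]
        rw [h2]
      rw [h1]
      refine (av_mono key).trans ?_
      rw [av_add]
      have hne : Nonempty (V → Fin (16 * w) × Bool) := ⟨fun _ => (⟨0, hN⟩, true)⟩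
      rw [av_const]
      have h4 : (av fun ω : V → Fin (16 * w) × Bool =>
          if (∃ g, N.layer g = t ∧ ¬ Dt S (restr ω ⟨0, hN⟩ (N.val g))) then (1 : ℝ) else 0) =
          pr (fun ω : V → Fin (16 * w) × Bool =>
            ∃ g, N.layer g = t ∧ ¬ Dt S (restr ω ⟨0, hN⟩ (N.val g))) := by
        unfold pr
        exact av_congr fun ω => by congr
      rw [h4, hB]
      have h5 : ((Finset.univ.filter fun g : G => N.layer g = t).card : ℝ) +
          ((Finset.univ.filter fun g : G => t + 1 ≤ N.layer g).card : ℝ) =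
          ((Finset.univ.filter fun g : G => t ≤ N.layer g).card : ℝ) := by
        exact_mod_cast card_layers N.layer t
      rw [← h5, add_mul, add_assoc]
      exact add_le_add hE le_rfl

end Pool.Agent.H2.PF
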