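import Pool.Agent.H2.PF.Cor
import Pool.Agent.H2.PF.Spc
import Pool.Agent.H2.PF.Liv
import Pool.Agent.H58.PM.Avg

/-! The contradiction in the main case.

PROOF. `exists_code hnL` (Pool/Agent/H58/PM/Layout.lean) gives `code`; the `2^(8 j)` keys are embedded
in the group `J0` (`Function.Embedding.nonempty_of_card_le`, as in `lower` of
Pool/Agent/Results/MP_0f984e_lc/PolynomialMethod.lean): `pos v := (e v).1`, injective, in the group.
`exists_space S a j hS ha T 1 le_rfl hS` gives `Ξ, out` with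
`pr (out = none) = 1 / (8 * a * 1 * (16 * S)^T)` and the bound for nets.
`sel θ`: choose an equivalence `ε : Fin (8 * j) × Bool ≃ Fin (16 * j)`
(`Fintype.equivOfCardEq` , card `8 j * 2 = 16 j`). If there is `sel' : Fin (16 * j) → Fin M` injective
with `out (θ (sel' p)) = none`, `sel θ := sel' ∘ ε` for a chosen one, otherwise
`sel θ := fun _ => ⟨0, _⟩` (`0 < M` by `hM`: `M ≥ 32 j * 8 a (16 S)^T > 0`).
`PM.exists_good μ` (good C τ := C.CorrectOn (inst ...)) with `inst_valid` gives an algorithm `C` in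
the support with the hypothesis `hC` of `core`, so `1 / 48 ≤ pr (Bad ...)`.
On the other side `Bad` implies: no live `sel'`, or `∃ j' g, ¬ Dt ...`. So
`pr Bad ≤ 1/256 + ∑ j', pr (∃ g, ¬ Dt j ...)` by `pr_or_le`, `pr_exists_le` over `Finset.univ`, and
`live_prob` (with `N := 8 * a * 1 * (16 * S)^T`, `hp` an equality). For each `j'` the net
`net (C.circuit I0 J0 j') code M` (PF/Val.lean; `net_inp`, `N.val g (fill out θ σ)` is by `rfl` the
value of the gate) with `t := 0`: the layers are `≤ 0 + T` because `layer : Fin s → Fin (T + 1)`, and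
no layer is `< 0`. The bound is `card {..} * (1/2)^S + s * (1/a)^(j+1) ≤ s (1/2)^S + s (1/a)^(j+1)`,
and the sum over `j' < q` is at most `q s (1/2)^S + q s (1/a)^(j+1) ≤ 2/256` by `e1`, `e2`.
`3/256 < 1/48`. -/

set_option autoImplicit false
set_option maxHeartbeats 4000000

namespace Pool.Agent.H2.PF

open Pool.Agent.H58.PM Pool.Agent.H58.OVT Pool.Agent.H58.OVAC

open Classical in
theorem contra {F : Type} [Field F] {n d T s q w pA pB : ℕ} {P : Partition n pA pB}
    {S a j M L : ℕ} (hn : 0 < n) (hnL : n ≤ 2 ^ L) (hd : L + 2 + M ≤ d) (hS : 1 ≤ S) (ha : 1 ≤ a)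
    (hM : 32 * j * (8 * a * 1 * (16 * S) ^ T) ≤ M) (hj : 14 ≤ j)
    (hq : q ^ 2 ≤ 2 ^ j) (hw : w ^ 2 ≤ 2 ^ j)
    (e1 : (q * s : ℝ) * (1 / 2) ^ S ≤ 1 / 256) (e2 : (q * s : ℝ) * (1 / (a : ℝ)) ^ (j + 1) ≤ 1 / 256)
    (J0 : Fin pB) (hJ0 : 2 ^ (8 * j) ≤ (Finset.univ.filter fun i => P.groupB i = J0).card)
    (μ : PMF (Algorithm F n d (T + 1) s q w pA pB P))
    (hμ : ∀ x : Input n d, IsValid x → 2 / 3 ≤ μ.toOuterMeasure {C | C.CorrectOn x}) : False := by
  obtain ⟨code, hcode⟩ := exists_code hnL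
  obtain ⟨e⟩ : Nonempty ((Fin (8 * j) → Bool) ↪
      {i // i ∈ Finset.univ.filter fun i => P.groupB i = J0}) := by
    apply Function.Embedding.nonempty_of_card_le
    rw [Fintype.card_coe]
    refine le_trans (le_of_eq ?_) hJ0
    simp
  obtain ⟨pos, hpos, hJ⟩ : ∃ pos : (Fin (8 * j) → Bool) → Fin n, Function.Injective pos ∧
      ∀ v, P.groupB (pos v) = J0 :=
    ⟨fun v => (e v).1, fun a b h => e.injective (Subtype.ext h),
      fun v => (Finset.mem_filter.1 (e v).2).2⟩
  obtain ⟨Ξ, _, _, out, hout, hnet⟩ := exists_space S a j hS ha T 1 le_rfl hS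
  have hMpos : 0 < M := by
    refine lt_of_lt_of_le ?_ hM
    positivity
  obtain ⟨ε⟩ : Nonempty (Fin (8 * j) × Bool ≃ Fin (16 * j)) := by
    refine ⟨Fintype.equivOfCardEq ?_⟩
    rw [Fintype.card_prod, Fintype.card_fin, Fintype.card_fin, Fintype.card_bool]
    ring
  obtain ⟨sel, hsel⟩ : ∃ sel : (Fin M → Ξ) → Fin (8 * j) × Bool → Fin M, ∀ θ : Fin M → Ξ,
      (∃ sel' : Fin (16 * j) → Fin M, Function.Injective sel' ∧
        ∀ p, out (θ (sel' p)) = none) →
      Function.Injective (sel θ) ∧ ∀ p, out (θ (sel θ p)) = none := by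
    have h : ∀ θ : Fin M → Ξ, ∃ f : Fin (8 * j) × Bool → Fin M,
        (∃ sel' : Fin (16 * j) → Fin M, Function.Injective sel' ∧
          ∀ p, out (θ (sel' p)) = none) →
        Function.Injective f ∧ ∀ p, out (θ (f p)) = none := by
      intro θ
      by_cases h : ∃ sel' : Fin (16 * j) → Fin M, Function.Injective sel' ∧
          ∀ p, out (θ (sel' p)) = none
      · obtain ⟨sel', h1, h2⟩ := h
        exact ⟨sel' ∘ ε, fun _ => ⟨h1.comp ε.injective, fun p => h2 (ε p)⟩⟩
      · exact ⟨fun _ => ⟨0, hMpos⟩, fun h' => absurd h' h⟩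
    choose sel hsel using h
    exact ⟨sel, hsel⟩
  obtain ⟨C, -, hC⟩ := exists_good μ
    (T := (Fin M → Ξ) × (Fin (8 * j) → Bool) × Finset (Fin (8 * j) → Bool))
    (fun C τ => C.CorrectOn (inst d code pos (encA out (sel τ.1) τ.1) (encB (sel τ.1))
      τ.2.1 τ.2.2))
    (fun τ => hμ _ (inst_valid hcode hd _ _ _ _))
  have hcore := core out sel C hn hj hq hw hd J0 hJ hpos hC
  clear hC
  have h1 : pr (fun θ : Fin M → Ξ =>
      Bad (fun j' => C.circuit (P.groupA ⟨0, hn⟩) J0 j') code out j (sel θ) θ) ≤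
      pr (fun θ : Fin M → Ξ => (¬ ∃ sel' : Fin (16 * j) → Fin M, Function.Injective sel' ∧
        ∀ p, out (θ (sel' p)) = none) ∨ ∃ j' ∈ (Finset.univ : Finset (Fin q)), ∃ g,
        ¬ Dt j (fun σ => (net (C.circuit (P.groupA ⟨0, hn⟩) J0 j') code M).val g
          (fill out θ σ))) := by
    refine pr_mono fun θ hθ => ?_
    rcases hθ with h | ⟨j', g, h⟩
    · exact Or.inl fun h' => h (hsel θ h')
    · exact Or.inr ⟨j', Finset.mem_univ _, g, h⟩
  have h2 := (h1.trans (pr_or_le _ _)).trans (add_le_add_right (pr_exists_le _ _) _)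
  have h3 : pr (fun θ : Fin M → Ξ => ¬ ∃ sel' : Fin (16 * j) → Fin M,
      Function.Injective sel' ∧ ∀ p, out (θ (sel' p)) = none) ≤ 1 / 256 := by
    refine live_prob out (N := 8 * a * 1 * (16 * S) ^ T) (by positivity) ?_ ?_ (by omega)
    · rw [hout]
      push_cast
      exact le_rfl
    · exact_mod_cast hM
  have h4 : ∀ j' : Fin q, pr (fun θ : Fin M → Ξ => ∃ g,
        ¬ Dt j (fun σ => (net (C.circuit (P.groupA ⟨0, hn⟩) J0 j') code M).val g
          (fill out θ σ))) ≤ (s : ℝ) * (1 / 2) ^ S + (s : ℝ) * (1 / (a : ℝ)) ^ (j + 1) := by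
    intro j'
    refine (hnet (Fin M) (Fin n × Fin d) (Fin s)
      (net (C.circuit (P.groupA ⟨0, hn⟩) J0 j') code M) 0 (net_inp _ code hd)
      (fun g h => absurd h (Nat.not_lt_zero _)) (fun g => ?_)).trans ?_
    · have := ((C.circuit (P.groupA ⟨0, hn⟩) J0 j').layer g).2
      show ((C.circuit (P.groupA ⟨0, hn⟩) J0 j').layer g : ℕ) ≤ 0 + T
      omega
    · rw [Fintype.card_fin]
      have h5 : ((Finset.univ.filter fun g : Fin s =>
          0 ≤ (net (C.circuit (P.groupA ⟨0, hn⟩) J0 j') code M).layer g).card : ℝ) ≤ s := by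
        have := Finset.card_le_univ (Finset.univ.filter fun g : Fin s =>
          0 ≤ (net (C.circuit (P.groupA ⟨0, hn⟩) J0 j') code M).layer g)
        rw [Fintype.card_fin] at this
        exact_mod_cast this
      have h6 : (0 : ℝ) ≤ (1 / 2) ^ S := by positivity
      have h7 := mul_le_mul_of_nonneg_right h5 h6
      linarith
  have h5 := Finset.sum_le_sum fun (j' : Fin q) (_ : j' ∈ (Finset.univ : Finset (Fin q))) => h4 j'
  rw [Finset.sum_const, Finset.card_univ, Fintype.card_fin, nsmul_eq_mul] at h5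
  have h6 : (q : ℝ) * ((s : ℝ) * (1 / 2) ^ S + (s : ℝ) * (1 / (a : ℝ)) ^ (j + 1)) =
      (q * s : ℝ) * (1 / 2) ^ S + (q * s : ℝ) * (1 / (a : ℝ)) ^ (j + 1) := by ring
  rw [h6] at h5
  linarith

end Pool.Agent.H2.PF
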