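import Pool.Agent.H2.PF.Andl
import Pool.Agent.H2.PF.Last

/-! One restriction of a net.

`mid_step`: N = 16 w colours; the probability that some gate of layer `t` has no decision tree of
depth `S` is at most (number of gates of layer `t`) / 2^S.
`fin_step`: N = 8 a w colours; the probability that some gate has no decision tree of depth `j` is at
most (number of gates) / a^(j+1).

PROOF. For a gate `g` of layer `t` (layer `≤ t` for `fin_step`) `and_list` with `Q := N.lits g`,
`e q := Sum.elim N.inp N.val q.1`, `b q := q.2`, `F := N.val g` gives a decision list of width `w`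
whose value is `N.val g`: each literal is either an input (`Dt 1`, so `Dt w` by `Dt.mono`) or a gate
`h` with `layer h < layer g ≤ t`, `Dt w` by hypothesis. (`hF` is `N.val_iff g σ`, after
`Sum.elim` of the two cases, `rcases q.1`.) Then `OVT.switch` (respectively `last_step`) bounds the
probability for one gate, and `OVAC.pr_exists_le` over the finset of the gates of layer `t`
(respectively `Finset.univ`) gives the sum, `Finset.sum_le_card_nsmul`. -/

set_option autoImplicit false
set_option maxHeartbeats 4000000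

namespace Pool.Agent.H2.PF

open Pool.Agent.H58.OVAC Pool.Agent.H58.OVPR Pool.Agent.H58.OVT

private theorem stp_list {V ι G : Type} [DecidableEq V] (N : Net V ι G) {w : ℕ} (hw : 1 ≤ w)
    (hin : ∀ i, Dt 1 (N.inp i)) (g : G) (hlow : ∀ h, N.layer h < N.layer g → Dt w (N.val h)) :
    ∃ L : List (Item V Bool), (∀ x ∈ L, x.1.1.card ≤ w) ∧ ∀ y0 : Bool, evalL L y0 = N.val g := by
  refine and_list (N.lits g)
    (fun q σ => Sum.elim (fun i => N.inp i σ) (fun h => N.val h σ) q.1) (fun q => q.2) ?_
    (N.val g) (N.val_iff g)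
  rintro ⟨q, b⟩ hq
  rcases q with i | h
  · exact Dt.mono hw (hin i)
  · exact hlow h (N.lower g _ hq h rfl)

open Classical in
theorem mid_step {V ι G : Type} [Fintype V] [DecidableEq V] [Fintype G] (N : Net V ι G)
    {w S t : ℕ} (hw : 1 ≤ w) (j : Fin (16 * w)) (hin : ∀ i, Dt 1 (N.inp i))
    (hlow : ∀ g, N.layer g < t → Dt w (N.val g)) :
    pr (fun ω : V → Fin (16 * w) × Bool => ∃ g, N.layer g = t ∧ ¬ Dt S (restr ω j (N.val g))) ≤
      ((Finset.univ.filter fun g : G => N.layer g = t).card : ℝ) * (1 / 2) ^ S := by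
  refine (pr_mono (t := fun ω : V → Fin (16 * w) × Bool =>
    ∃ g ∈ Finset.univ.filter fun g : G => N.layer g = t,
      ¬ Dt S (restr ω j (N.val g))) ?_).trans ((pr_exists_le _ _).trans ?_)
  · rintro ω ⟨g, h1, h2⟩
    exact ⟨g, Finset.mem_filter.2 ⟨Finset.mem_univ g, h1⟩, h2⟩
  · have h3 : ∀ g ∈ Finset.univ.filter fun g : G => N.layer g = t,
        pr (fun ω : V → Fin (16 * w) × Bool => ¬ Dt S (restr ω j (N.val g))) ≤
          (1 / 2 : ℝ) ^ S := by
      intro g hg
      have hg' := (Finset.mem_filter.1 hg).2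
      obtain ⟨L, hL, hv⟩ := stp_list N hw hin g (fun h hh => hlow h (by omega))
      have h4 := switch (V := V) (s := S) le_rfl hw j L hL true
      rw [hv] at h4
      exact h4
    refine (Finset.sum_le_card_nsmul _ _ _ h3).trans ?_
    rw [nsmul_eq_mul]

theorem fin_step {V ι G : Type} [Fintype V] [DecidableEq V] [Fintype G] (N : Net V ι G)
    {w a r t : ℕ} (hw : 1 ≤ w) (ha : 1 ≤ a) (j : Fin (8 * a * w)) (hin : ∀ i, Dt 1 (N.inp i))
    (hlow : ∀ g, N.layer g < t → Dt w (N.val g)) (hlay : ∀ g, N.layer g ≤ t) :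
    pr (fun ω : V → Fin (8 * a * w) × Bool => ∃ g, ¬ Dt r (restr ω j (N.val g))) ≤
      (Fintype.card G : ℝ) * (1 / (a : ℝ)) ^ (r + 1) := by
  refine (pr_mono (t := fun ω : V → Fin (8 * a * w) × Bool =>
    ∃ g ∈ (Finset.univ : Finset G), ¬ Dt r (restr ω j (N.val g))) ?_).trans
      ((pr_exists_le _ _).trans ?_)
  · rintro ω ⟨g, h2⟩
    exact ⟨g, Finset.mem_univ g, h2⟩
  · have h3 : ∀ g ∈ (Finset.univ : Finset G),
        pr (fun ω : V → Fin (8 * a * w) × Bool => ¬ Dt r (restr ω j (N.val g))) ≤
          (1 / (a : ℝ)) ^ (r + 1) := by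
      intro g _
      obtain ⟨L, hL, hv⟩ := stp_list N hw hin g
        (fun h hh => hlow h (lt_of_lt_of_le hh (hlay g)))
      have h4 := last_step (V := V) (r := r) hw ha j L hL true
      rw [hv] at h4
      exact h4
    refine (Finset.sum_le_card_nsmul _ _ _ h3).trans ?_
    rw [nsmul_eq_mul, Finset.card_univ]

end Pool.Agent.H2.PF
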