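import Pool.Agent.H2.PF.Defs
import Pool.Agent.H58.PM.Layout
import Pool.Agent.H58.PM.UpCount
import Pool.Agent.H58.PM.UpDeg
import Pool.Agent.H58.PM.UpChern
import Pool.Agent.H58.PM.UpNum

/-! The upper bound: the algorithm of Abboud, Williams and Yu in the model, with circuits of one
layer. Adapted from the old file. -/

set_option autoImplicit false
set_option maxHeartbeats 4000000

namespace Pool.Agent.H2.PF

open Pool.Agent.H58.PM

variable {n d : ℕ}

/-! ### The algorithm of Abboud, Williams and Yu -/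

section upper

/-- The partition into consecutive groups of `s` positions. -/
def part (n s : ℕ) : Partition n ((n - 1) / s + 1) ((n - 1) / s + 1) where
  groupA i := ⟨i.1 / s, Nat.lt_succ_of_le (Nat.div_le_div_right (by have := i.2; omega))⟩
  groupB i := ⟨i.1 / s, Nat.lt_succ_of_le (Nat.div_le_div_right (by have := i.2; omega))⟩

/-- The positions of a group. -/
def posn (n s : ℕ) (hn : 0 < n) (I : Fin ((n - 1) / s + 1)) (a : Fin s) : Fin n :=
  if h : I.1 * s + a.1 < n then ⟨I.1 * s + a.1, h⟩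
  else ⟨I.1 * s, by
    have h1 : I.1 * s ≤ (n - 1) / s * s := Nat.mul_le_mul_right _ (Nat.lt_succ_iff.1 I.2)
    have h2 := Nat.div_mul_le_self (n - 1) s
    omega⟩

theorem posn_div {n s : ℕ} (hn : 0 < n) (I : Fin ((n - 1) / s + 1)) (a : Fin s) :
    (posn n s hn I a).1 / s = I.1 := by
  have hs : 0 < s := lt_of_le_of_lt (Nat.zero_le _) a.2
  unfold posn
  by_cases h : I.1 * s + a.1 < n
  · rw [dif_pos h]
    show (I.1 * s + a.1) / s = I.1
    rw [mul_comm, Nat.mul_add_div hs, Nat.div_eq_of_lt a.2, add_zero]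
  · rw [dif_neg h]
    show I.1 * s / s = I.1
    exact Nat.mul_div_cancel _ hs

theorem posn_surj {n s : ℕ} (hn : 0 < n) (hs : 0 < s) (i : Fin n) :
    posn n s hn ⟨i.1 / s, Nat.lt_succ_of_le (Nat.div_le_div_right (by have := i.2; omega))⟩
      ⟨i.1 % s, Nat.mod_lt _ hs⟩ = i := by
  have h1 : i.1 / s * s + i.1 % s = i.1 := by
    rw [mul_comm]
    exact Nat.div_add_mod _ _
  unfold posn
  rw [dif_pos (by show i.1 / s * s + i.1 % s < n; rw [h1]; exact i.2)]
  exact Fin.ext h1

/-- The numbering of the features. -/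
noncomputable def num (d s t : ℕ) :
    (Fin s × {T : Finset (Fin d) // T.card ≤ t}) ≃
      Fin (Fintype.card (Fin s × {T : Finset (Fin d) // T.card ≤ t})) :=
  Fintype.equivFin _

open Classical in
/-- The circuit which computes the features of the group `I`. -/
noncomputable def awyC (n d s t : ℕ) (hn : 0 < n) (I : Fin ((n - 1) / s + 1)) :
    Circuit n d 1 (Fintype.card (Fin s × {T : Finset (Fin d) // T.card ≤ t})) where
  layer _ := 0
  lits l := ((num d s t).symm l).2.1.image fun k =>
    (Sum.inl (posn n s hn I ((num d s t).symm l).1, k), true)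
  lower l x hx h hh := by
    obtain ⟨k, _, rfl⟩ := Finset.mem_image.1 hx
    exact absurd hh (by simp)

open Classical in
/-- The algorithm with the random choices `f`. -/
noncomputable def awy (n d s t q' : ℕ) (hn : 0 < n) (f : Fin (8 * q') → Om d s t) :
    Algorithm (ZMod 2) n d 1 (Fintype.card (Fin s × {T : Finset (Fin d) // T.card ≤ t})) (8 * q') 0
      ((n - 1) / s + 1) ((n - 1) / s + 1) (part n s) where
  circuit I _ _ := awyC n d s t hn I
  reads I J j l x hx z hz := by
    obtain ⟨k, _, rfl⟩ := Finset.mem_image.1 hx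
    have h1 : z = (posn n s hn I ((num d s t).symm l).1, k) := (Sum.inl_injective hz).symm
    rw [h1]
    exact Fin.ext (posn_div hn I _)
  weight _ J j l y := (f j).2.1 ((num d s t).symm l).1 *
    coef (f j).1 (f j).2.2 (fun b => y (posn n s hn J b)) ((num d s t).symm l).2
  weight_group _ J j l y y' h := by
    have h1 : (fun b => y (posn n s hn J b)) = fun b => y' (posn n s hn J b) := by
      funext b
      exact h _ (Fin.ext (posn_div hn J b))
    rw [h1]
  test _ _ _ v := v ≠ 0
  isTest _ _ _ := Or.inl fun _ => Iff.rfl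
  verdict _ _ o := q' ≤ (Finset.univ.filter fun j => o j).card

theorem awy_product {s t q' : ℕ} (hn : 0 < n) (f : Fin (8 * q') → Om d s t) :
    (awy n d s t q' hn f).IsProduct :=
  ⟨fun _ _ _ _ _ => rfl, fun _ _ _ _ _ _ => rfl⟩

theorem awyC_value {s t : ℕ} (hn : 0 < n) (I : Fin ((n - 1) / s + 1)) (a : Fin s)
    (T : {T : Finset (Fin d) // T.card ≤ t}) (x : Fin n → Vec d) :
    (awyC n d s t hn I).value x (num d s t (a, T)) = true ↔
      ∀ k ∈ T.1, x (posn n s hn I a) k = true := by
  classical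
  rw [value_iff]
  have h0 : (awyC n d s t hn I).lits (num d s t (a, T)) =
      T.1.image fun k => (Sum.inl (posn n s hn I a, k), true) := by
    show ((num d s t).symm (num d s t (a, T))).2.1.image (fun k =>
      (Sum.inl (posn n s hn I ((num d s t).symm (num d s t (a, T))).1, k), true)) = _
    rw [Equiv.symm_apply_apply]
  rw [h0]
  constructor
  · intro h k hk
    exact h _ (Finset.mem_image_of_mem _ hk)
  · intro h z hz
    obtain ⟨k, hk, rfl⟩ := Finset.mem_image.1 hz
    exact h k hk

theorem awy_entry {s t q' : ℕ} (hn : 0 < n) (f : Fin (8 * q') → Om d s t)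
    (I J : Fin ((n - 1) / s + 1)) (j : Fin (8 * q')) (x : Input n d) :
    (awy n d s t q' hn f).entry I J j x =
      form (f j) (fun a => x (false, posn n s hn I a)) (fun b => x (true, posn n s hn J b)) := by
  classical
  rw [form_eq]
  unfold Algorithm.entry
  rw [← Equiv.sum_comp (num d s t)]
  apply Finset.sum_congr rfl
  rintro ⟨a, T⟩ _
  have h1 : (if ((awy n d s t q' hn f).circuit I J j).value (fun i => x (false, i))
      (num d s t (a, T)) = true then (1 : ZMod 2) else 0) =
      mono T.1 (x (false, posn n s hn I a)) := by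
    unfold mono
    have h2 : ((awy n d s t q' hn f).circuit I J j).value (fun i => x (false, i))
        (num d s t (a, T)) = true ↔ _ := awyC_value hn I a T (fun i => x (false, i))
    by_cases h3 : ∀ k ∈ T.1, x (false, posn n s hn I a) k = true
    · rw [if_pos (h2.2 h3), Finset.prod_eq_one]
      intro k hk
      rw [h3 k hk]
      rfl
    · rw [if_neg (fun h => h3 (h2.1 h))]
      push Not at h3
      obtain ⟨k, hk, hk2⟩ := h3
      symm
      apply Finset.prod_eq_zero hk
      have h4 : x (false, posn n s hn I a) k = false := by simpa using hk2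
      rw [h4]
      rfl
  rw [h1]
  have h2 : (awy n d s t q' hn f).weight I J j (num d s t (a, T)) (fun i => x (true, i)) =
      (f j).2.1 a * coef (f j).1 (f j).2.2 (fun b => x (true, posn n s hn J b)) T := by
    show (f j).2.1 ((num d s t).symm (num d s t (a, T))).1 *
      coef (f j).1 (f j).2.2 (fun b => x (true, posn n s hn J b))
        ((num d s t).symm (num d s t (a, T))).2 = _
    rw [Equiv.symm_apply_apply]
  rw [h2]

theorem awy_acc {s t q' : ℕ} (hn : 0 < n) (f : Fin (8 * q') → Om d s t)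
    (I J : Fin ((n - 1) / s + 1)) (x : Input n d) :
    (awy n d s t q' hn f).Acc I J x ↔ q' ≤ succ (fun ω : Om d s t =>
      form ω (fun a => x (false, posn n s hn I a)) (fun b => x (true, posn n s hn J b)) ≠ 0) f := by
  have h1 : (@Finset.filter _ (fun j => (awy n d s t q' hn f).entry I J j x ≠ 0)
      (fun _ => Classical.propDecidable _) Finset.univ) = Finset.univ.filter fun j =>
        form (f j) (fun a => x (false, posn n s hn I a))
          (fun b => x (true, posn n s hn J b)) ≠ 0 := by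
    ext j
    simp only [Finset.mem_filter, Finset.mem_univ, true_and, awy_entry]
  unfold succ
  rw [← h1]
  exact Iff.rfl

theorem orth_iff (x : Input n d) (i j : Fin n) :
    ∑ k : Fin d, (x (false, i) k).toNat * (x (true, j) k).toNat = 0 ↔
      ∀ k, ¬ (x (false, i) k = true ∧ x (true, j) k = true) :=
  sum_toNat_eq_zero_iff _ _

theorem awy_correct {s t q' : ℕ} (hn : 0 < n) (hs : 0 < s) (f : Fin (8 * q') → Om d s t)
    (x : Input n d)
    (h : ∀ I J : Fin ((n - 1) / s + 1), ((awy n d s t q' hn f).Acc I J x ↔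
      ∃ a b : Fin s, ∀ k, ¬ (x (false, posn n s hn I a) k = true ∧
        x (true, posn n s hn J b) k = true))) :
    (awy n d s t q' hn f).CorrectOn x := by
  unfold Algorithm.CorrectOn HasOrthogonalPair
  simp only [orth_iff]
  constructor
  · rintro ⟨I, J, hIJ⟩
    obtain ⟨a, b, hab⟩ := (h I J).1 hIJ
    exact ⟨_, _, hab⟩
  · rintro ⟨i, j, hij⟩
    refine ⟨_, _, (h ⟨i.1 / s, Nat.lt_succ_of_le (Nat.div_le_div_right (by
      have := i.2; omega))⟩ ⟨j.1 / s, Nat.lt_succ_of_le (Nat.div_le_div_right (by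
      have := j.2; omega))⟩).2 ⟨⟨i.1 % s, Nat.mod_lt _ hs⟩, ⟨j.1 % s, Nat.mod_lt _ hs⟩, ?_⟩⟩
    rw [posn_surj hn hs, posn_surj hn hs]
    exact hij

open Classical in
/-- The failures for a pair of groups. -/
theorem awy_bad {s t q' : ℕ} (hn : 0 < n) (ht : 64 * s ^ 2 ≤ 2 ^ t) (x : Input n d)
    (I J : Fin ((n - 1) / s + 1)) :
    ((Finset.univ.filter fun f : Fin (8 * q') → Om d s t =>
      ¬ ((awy n d s t q' hn f).Acc I J x ↔
        ∃ a b : Fin s, ∀ k, ¬ (x (false, posn n s hn I a) k = true ∧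
          x (true, posn n s hn J b) k = true))).card : ℝ) ≤
      (7 / 10) ^ q' * (Fintype.card (Om d s t) : ℝ) ^ (8 * q') := by
  by_cases h : ∃ a b : Fin s, ∀ k, ¬ (x (false, posn n s hn I a) k = true ∧
      x (true, posn n s hn J b) k = true)
  · obtain ⟨a, b, hab⟩ := id h
    have h1 := card_few (q' := q') (fun ω : Om d s t =>
      form ω (fun a => x (false, posn n s hn I a)) (fun b => x (true, posn n s hn J b)) ≠ 0)
      (card_form_yes (X := fun a => x (false, posn n s hn I a))
        (Y := fun b => x (true, posn n s hn J b)) hab)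
    refine le_trans ?_ h1
    have h2 : (Finset.univ.filter fun f : Fin (8 * q') → Om d s t =>
      ¬ ((awy n d s t q' hn f).Acc I J x ↔
        ∃ a b : Fin s, ∀ k, ¬ (x (false, posn n s hn I a) k = true ∧
          x (true, posn n s hn J b) k = true))) ⊆
        Finset.univ.filter fun f : Fin (8 * q') → Om d s t =>
          ¬ q' ≤ succ (fun ω : Om d s t => form ω (fun a => x (false, posn n s hn I a))
            (fun b => x (true, posn n s hn J b)) ≠ 0) f := by
      intro f hf
      have h3 := (Finset.mem_filter.1 hf).2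
      refine Finset.mem_filter.2 ⟨Finset.mem_univ _, fun h4 => h3 ⟨fun _ => h, fun _ => ?_⟩⟩
      exact (awy_acc hn f I J x).2 h4
    exact_mod_cast Finset.card_le_card h2
  · have h0 : ∀ a b : Fin s, ∃ k, x (false, posn n s hn I a) k = true ∧
        x (true, posn n s hn J b) k = true := by
      push Not at h
      intro a b
      obtain ⟨k, hk⟩ := h a b
      exact ⟨k, hk⟩
    have hno := card_form_no (t := t) (X := fun a => x (false, posn n s hn I a))
      (Y := fun b => x (true, posn n s hn J b)) h0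
    have hs : 0 < s ∨ s = 0 := by omega
    have h64 : 64 * (Finset.univ.filter fun ω : Om d s t =>
        form ω (fun a => x (false, posn n s hn I a)) (fun b => x (true, posn n s hn J b)) ≠ 0).card
        ≤ Fintype.card (Om d s t) := by
      rcases hs with hs | hs
      · have h5 : s ^ 2 * (64 * (Finset.univ.filter fun ω : Om d s t =>
          form ω (fun a => x (false, posn n s hn I a))
            (fun b => x (true, posn n s hn J b)) ≠ 0).card) ≤
            s ^ 2 * Fintype.card (Om d s t) := by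
          refine le_trans ?_ hno
          rw [← mul_assoc, mul_comm (s ^ 2) 64]
          exact Nat.mul_le_mul_right _ ht
        exact Nat.le_of_mul_le_mul_left h5 (by positivity)
      · subst hs
        have h5 : (Finset.univ.filter fun ω : Om d 0 t =>
          form ω (fun a => x (false, posn n 0 hn I a))
            (fun b => x (true, posn n 0 hn J b)) ≠ 0) = ∅ := by
          apply Finset.filter_eq_empty_iff.2
          intro ω _ h6
          apply h6
          unfold form
          simp
        rw [h5]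
        simp
    have h1 := card_many (q' := q') (fun ω : Om d s t =>
      form ω (fun a => x (false, posn n s hn I a)) (fun b => x (true, posn n s hn J b)) ≠ 0) h64
    refine le_trans ?_ h1
    have h2 : (Finset.univ.filter fun f : Fin (8 * q') → Om d s t =>
      ¬ ((awy n d s t q' hn f).Acc I J x ↔
        ∃ a b : Fin s, ∀ k, ¬ (x (false, posn n s hn I a) k = true ∧
          x (true, posn n s hn J b) k = true))) ⊆
        Finset.univ.filter fun f : Fin (8 * q') → Om d s t =>
          q' ≤ succ (fun ω : Om d s t => form ω (fun a => x (false, posn n s hn I a))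
            (fun b => x (true, posn n s hn J b)) ≠ 0) f := by
      intro f hf
      have h3 := (Finset.mem_filter.1 hf).2
      refine Finset.mem_filter.2 ⟨Finset.mem_univ _, ?_⟩
      by_contra h4
      apply h3
      constructor
      · intro h5
        exact absurd ((awy_acc hn f I J x).1 h5) h4
      · intro h5
        exact absurd h5 h
    exact_mod_cast Finset.card_le_card h2

/-- The probability of success. -/
theorem awy_prob {s t : ℕ} (hn : 0 < n) (hs : 0 < s) (ht : 64 * s ^ 2 ≤ 2 ^ t) (x : Input n d) :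
    2 / 3 ≤ ((PMF.uniformOfFintype (Fin (8 * (4 * Nat.clog 2 n + 4)) → Om d s t)).map
      (awy n d s t (4 * Nat.clog 2 n + 4) hn)).toOuterMeasure {C | C.CorrectOn x} := by
  classical
  obtain ⟨q', hq'⟩ : ∃ q', q' = 4 * Nat.clog 2 n + 4 := ⟨_, rfl⟩
  rw [← hq']
  obtain ⟨bad, hbad⟩ : ∃ bad, bad = Finset.univ.filter fun f : Fin (8 * q') → Om d s t =>
    ¬ (awy n d s t q' hn f).CorrectOn x := ⟨_, rfl⟩
  have h1 : bad ⊆ (Finset.univ : Finset (Fin ((n - 1) / s + 1) × Fin ((n - 1) / s + 1))).biUnion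
      fun IJ => Finset.univ.filter fun f : Fin (8 * q') → Om d s t =>
        ¬ ((awy n d s t q' hn f).Acc IJ.1 IJ.2 x ↔
        ∃ a b : Fin s, ∀ k, ¬ (x (false, posn n s hn IJ.1 a) k = true ∧
          x (true, posn n s hn IJ.2 b) k = true)) := by
    intro f hf
    rw [hbad] at hf
    have h2 := (Finset.mem_filter.1 hf).2
    by_contra h3
    apply h2
    apply awy_correct hn hs
    intro I J
    by_contra h4
    apply h3
    exact Finset.mem_biUnion.2 ⟨(I, J), Finset.mem_univ _,
      Finset.mem_filter.2 ⟨Finset.mem_univ _, h4⟩⟩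
  have hp : (n - 1) / s + 1 ≤ n := by
    have := Nat.div_le_self (n - 1) s
    omega
  have h2 : (bad.card : ℝ) ≤ (n : ℝ) ^ 2 *
      ((7 / 10) ^ q' * (Fintype.card (Om d s t) : ℝ) ^ (8 * q')) := by
    have h3 : (bad.card : ℝ) ≤ ∑ IJ : Fin ((n - 1) / s + 1) × Fin ((n - 1) / s + 1),
        ((Finset.univ.filter fun f : Fin (8 * q') → Om d s t =>
        ¬ ((awy n d s t q' hn f).Acc IJ.1 IJ.2 x ↔
        ∃ a b : Fin s, ∀ k, ¬ (x (false, posn n s hn IJ.1 a) k = true ∧
          x (true, posn n s hn IJ.2 b) k = true))).card : ℝ) := by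
      exact_mod_cast (Finset.card_le_card h1).trans Finset.card_biUnion_le
    refine h3.trans ((Finset.sum_le_sum fun IJ _ => awy_bad hn ht x IJ.1 IJ.2).trans ?_)
    rw [Finset.sum_const, Finset.card_univ, Fintype.card_prod, Fintype.card_fin, nsmul_eq_mul]
    apply mul_le_mul_of_nonneg_right _ (by positivity)
    push_cast
    rw [sq]
    have h4 : (((n - 1) / s : ℕ) : ℝ) + 1 ≤ n := by exact_mod_cast hp
    exact mul_le_mul h4 h4 (by positivity) (by positivity)
  have h3 : (n : ℝ) ^ 2 * (7 / 10) ^ q' ≤ 1 / 3 := by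
    have h4 : (n : ℝ) ≤ 2 ^ Nat.clog 2 n := by
      exact_mod_cast Nat.le_pow_clog (by norm_num) n
    calc (n : ℝ) ^ 2 * (7 / 10) ^ q' ≤ (2 ^ Nat.clog 2 n) ^ 2 * (1 / 4) ^ (Nat.clog 2 n + 1) := by
          have h5 : ((7 : ℝ) / 10) ^ q' ≤ (1 / 4) ^ (Nat.clog 2 n + 1) := by
            rw [hq', show 4 * Nat.clog 2 n + 4 = 4 * (Nat.clog 2 n + 1) by ring, pow_mul]
            apply pow_le_pow_left₀ (by positivity)
            norm_num
          gcongr
      _ = (4 * (1 / 4)) ^ Nat.clog 2 n * (1 / 4) := by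
          rw [mul_pow, ← pow_mul, mul_comm (Nat.clog 2 n) 2, pow_mul, pow_succ]
          norm_num
          ring
      _ ≤ 1 / 3 := by norm_num
  have hΩ : (0 : ℝ) < (Fintype.card (Om d s t) : ℝ) ^ (8 * q') := by
    have : 0 < Fintype.card (Om d s t) := Fintype.card_pos
    positivity
  have h4 : 3 * (bad.card : ℝ) ≤ (Fintype.card (Om d s t) : ℝ) ^ (8 * q') := by
    have h5 := mul_le_mul_of_nonneg_right h3 hΩ.le
    nlinarith
  have hcard : Fintype.card (Fin (8 * q') → Om d s t) = Fintype.card (Om d s t) ^ (8 * q') := by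
    rw [Fintype.card_fun, Fintype.card_fin]
  have h5 : 3 * bad.card ≤ Fintype.card (Fin (8 * q') → Om d s t) := by
    rw [hcard]
    exact_mod_cast h4
  rw [PMF.toOuterMeasure_map_apply, PMF.toOuterMeasure_uniformOfFintype_apply]
  have h6 : Fintype.card ((awy n d s t q' hn) ⁻¹' {C | C.CorrectOn x} : Set _) + bad.card =
      Fintype.card (Fin (8 * q') → Om d s t) := by
    have h7 := Finset.card_filter_add_card_filter_not
      (s := (Finset.univ : Finset (Fin (8 * q') → Om d s t)))
      (fun f => (awy n d s t q' hn f).CorrectOn x)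
    rw [← hbad, Finset.card_univ] at h7
    rw [← h7, Fintype.card_subtype]
    rfl
  obtain ⟨X, hX⟩ : ∃ X, X = Fintype.card ((awy n d s t q' hn) ⁻¹' {C | C.CorrectOn x} : Set _) :=
    ⟨_, rfl⟩
  obtain ⟨Y, hY⟩ : ∃ Y, Y = Fintype.card (Fin (8 * q') → Om d s t) := ⟨_, rfl⟩
  rw [← hX, ← hY] at h6 ⊢
  rw [← hY] at h5
  have hY0 : Y ≠ 0 := by
    rw [hY]
    exact Fintype.card_ne_zero
  have h8 : 2 * Y ≤ 3 * X := by omega
  rw [ENNReal.le_div_iff_mul_le (Or.inl (by exact_mod_cast hY0)) (Or.inl (ENNReal.natCast_ne_top _))]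
  rw [ENNReal.div_eq_inv_mul, mul_assoc, mul_comm, ← div_eq_mul_inv]
  apply ENNReal.div_le_of_le_mul
  have h9 : ((2 * Y : ℕ) : ENNReal) ≤ ((3 * X : ℕ) : ENNReal) := by exact_mod_cast h8
  push_cast at h9
  rw [mul_comm (X : ENNReal) 3]
  exact h9

end upper

/-- The upper bound. -/
theorem upper : ∃ δ : ℝ, 0 < δ ∧ ∀ (c : ℝ), 2 ≤ c → ∃ n0 : ℕ, ∀ n d : ℕ, n0 ≤ n →
    (d : ℝ) ≤ c * Real.logb 2 n →
    ∃ (s q p : ℕ) (P : Partition n p p) (μ : PMF (Algorithm (ZMod 2) n d 1 s q 0 p p P)),
      (q : ℝ) ≤ (n : ℝ) ^ (1 / Real.logb 2 c) ∧ (∀ C ∈ μ.support, C.IsProduct) ∧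
      (∀ x : Input n d, 2 / 3 ≤ μ.toOuterMeasure {C | C.CorrectOn x}) ∧
      (p : ℝ) * p + s ≤ (n : ℝ) ^ (2 - δ / Real.logb 2 c) := by
  refine ⟨1 / 64, by norm_num, fun c hc => ?_⟩
  obtain ⟨n0, hn0, hpar⟩ := exists_params hc
  refine ⟨n0, fun n d hn hd => ?_⟩
  obtain ⟨g, r, hgn, hdim, hq, hcost⟩ := hpar n hn
  have hn' : 0 < n := by omega
  have hs : 0 < 2 ^ g := by positivity
  have ht : 64 * (2 ^ g) ^ 2 ≤ 2 ^ (2 * g + 6) := by
    rw [pow_add, mul_comm 2 g, pow_mul]
    norm_num
    rw [mul_comm]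
  have hdt : d ≤ 2 ^ r * (2 * g + 6) := by
    have h1 : (d : ℝ) ≤ 2 ^ r * (2 * g + 6 : ℕ) := hd.trans hdim
    exact_mod_cast h1
  refine ⟨_, _, _, _, (PMF.uniformOfFintype
    (Fin (8 * (4 * Nat.clog 2 n + 4)) → Om d (2 ^ g) (2 * g + 6))).map
      (awy n d (2 ^ g) (2 * g + 6) (4 * Nat.clog 2 n + 4) hn'), hq, ?_,
      fun x => awy_prob hn' hs ht x, ?_⟩
  · intro C hC
    rw [PMF.mem_support_map_iff] at hC
    obtain ⟨f, -, rfl⟩ := hC
    exact awy_product hn' f
  refine le_trans ?_ hcost
  have h1 : Fintype.card (Fin (2 ^ g) × {T : Finset (Fin d) // T.card ≤ 2 * g + 6}) ≤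
      2 ^ g * 2 ^ ((r + 2) * (2 * g + 6)) := by
    rw [Fintype.card_prod, Fintype.card_fin]
    exact Nat.mul_le_mul_left _ (card_low hdt)
  have h2 : ((Fintype.card (Fin (2 ^ g) × {T : Finset (Fin d) // T.card ≤ 2 * g + 6}) : ℕ) : ℝ) ≤
      ((2 ^ g * 2 ^ ((r + 2) * (2 * g + 6)) : ℕ) : ℝ) := by exact_mod_cast h1
  linarith

end Pool.Agent.H2.PF
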